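import Mathlib

/-!
# Homogeneous sets in sparse graphs (Erdős–Szemerédi)
-/

namespace Pool.Agent.U547.EHT

open Finset

/-- Erdős–Szekeres. -/
theorem szekeres (adj : ℕ → ℕ → Prop) [DecidableRel adj] (hs : ∀ x y, adj x y → adj y x) :
    ∀ (N a b : ℕ), a + b = N → ∀ W : Finset ℕ, (a + b).choose b ≤ W.card →
      (∃ S ⊆ W, S.card = a + 1 ∧ ∀ x ∈ S, ∀ y ∈ S, x ≠ y → adj x y) ∨
      ∃ S ⊆ W, S.card = b + 1 ∧ ∀ x ∈ S, ∀ y ∈ S, x ≠ y → ¬ adj x y := by
  intro N
  induction N with
  | zero =>
    intro a b hab W hW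
    obtain ⟨rfl, rfl⟩ : a = 0 ∧ b = 0 := by omega
    obtain ⟨v, hv⟩ : W.Nonempty := card_pos.1 (by simpa using hW)
    left
    refine ⟨{v}, by simpa using hv, by simp, ?_⟩
    intro x hx y hy hxy
    simp only [mem_singleton] at hx hy
    exact absurd (hx.trans hy.symm) hxy
  | succ N ih =>
    intro a b hab W hW
    have hpos : 0 < (a + b).choose b := Nat.choose_pos (by omega)
    obtain ⟨v, hv⟩ : W.Nonempty := card_pos.1 (by omega)
    rcases Nat.eq_zero_or_pos a with rfl | ha
    · left
      refine ⟨{v}, by simpa using hv, by simp, ?_⟩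
      intro x hx y hy hxy
      simp only [mem_singleton] at hx hy
      exact absurd (hx.trans hy.symm) hxy
    rcases Nat.eq_zero_or_pos b with rfl | hb
    · right
      refine ⟨{v}, by simpa using hv, by simp, ?_⟩
      intro x hx y hy hxy
      simp only [mem_singleton] at hx hy
      exact absurd (hx.trans hy.symm) hxy
    obtain ⟨a, rfl⟩ : ∃ a', a = a' + 1 := ⟨a - 1, by omega⟩
    obtain ⟨b, rfl⟩ : ∃ b', b = b' + 1 := ⟨b - 1, by omega⟩
    have hch : (a + 1 + (b + 1)).choose (b + 1) =
        (a + 1 + b).choose b + (a + (b + 1)).choose (b + 1) := by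
      have h1 : a + 1 + (b + 1) = (a + b + 1) + 1 := by omega
      have h2 : a + 1 + b = a + b + 1 := by omega
      have h3 : a + (b + 1) = a + b + 1 := by omega
      rw [h1, h2, h3, Nat.choose_succ_succ]
    have hsplit : ((W.erase v).filter fun y => adj v y).card +
        ((W.erase v).filter fun y => ¬ adj v y).card = W.card - 1 := by
      rw [card_filter_add_card_filter_not, card_erase_of_mem hv]
    have hor : (a + (b + 1)).choose (b + 1) ≤ ((W.erase v).filter fun y => adj v y).card ∨
        (a + 1 + b).choose b ≤ ((W.erase v).filter fun y => ¬ adj v y).card := by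
      by_contra hcon
      push Not at hcon
      omega
    rcases hor with h | h
    · rcases ih a (b + 1) (by omega) _ h with ⟨S, hS, hSc, hSa⟩ | ⟨S, hS, hSc, hSa⟩
      · left
        have hvS : v ∉ S := fun hvS => by
          have := hS hvS
          simp at this
        refine ⟨insert v S, insert_subset hv ((hS.trans (filter_subset _ _)).trans
          (erase_subset _ _)), by rw [card_insert_of_notMem hvS, hSc], ?_⟩
        intro x hx y hy hxy
        rw [mem_insert] at hx hy
        rcases hx with rfl | hx <;> rcases hy with rfl | hy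
        · exact absurd rfl hxy
        · exact (mem_filter.1 (hS hy)).2
        · exact hs _ _ (mem_filter.1 (hS hx)).2
        · exact hSa x hx y hy hxy
      · right
        exact ⟨S, (hS.trans (filter_subset _ _)).trans (erase_subset _ _), hSc, hSa⟩
    · rcases ih (a + 1) b (by omega) _ h with ⟨S, hS, hSc, hSa⟩ | ⟨S, hS, hSc, hSa⟩
      · left
        exact ⟨S, (hS.trans (filter_subset _ _)).trans (erase_subset _ _), hSc, hSa⟩
      · right
        have hvS : v ∉ S := fun hvS => by
          have := hS hvS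
          simp at this
        refine ⟨insert v S, insert_subset hv ((hS.trans (filter_subset _ _)).trans
          (erase_subset _ _)), by rw [card_insert_of_notMem hvS, hSc], ?_⟩
        intro x hx y hy hxy
        rw [mem_insert] at hx hy
        rcases hx with rfl | hx <;> rcases hy with rfl | hy
        · exact absurd rfl hxy
        · exact (mem_filter.1 (hS hy)).2
        · exact fun h => (mem_filter.1 (hS hx)).2 (hs _ _ h)
        · exact hSa x hx y hy hxy

theorem sum_choose_le (N D m : ℕ) (hm : 1 ≤ m) :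
    (∑ i ∈ range (D + 1), (N.choose i : ℝ)) ≤ (m : ℝ) ^ D * Real.exp ((N : ℝ) / m) := by
  have hm' : (1 : ℝ) ≤ m := by exact_mod_cast hm
  have hm0 : (0 : ℝ) < m := by linarith
  have h1 : (1 + 1 / (m : ℝ)) ^ N ≤ Real.exp ((N : ℝ) / m) := by
    have h2 : 1 + 1 / (m : ℝ) ≤ Real.exp (1 / m) := by
      have := Real.add_one_le_exp (1 / (m : ℝ))
      linarith
    calc (1 + 1 / (m : ℝ)) ^ N ≤ Real.exp (1 / m) ^ N := by
          gcongr
      _ = Real.exp ((N : ℝ) / m) := by
          rw [← Real.exp_nat_mul]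
          congr 1
          ring
  have h3 : (∑ i ∈ range (D + 1), (N.choose i : ℝ)) ≤ (m : ℝ) ^ D * (1 + 1 / (m : ℝ)) ^ N := by
    rw [add_comm (1 : ℝ), add_pow]
    simp only [one_pow, mul_one]
    rw [mul_sum]
    calc (∑ i ∈ range (D + 1), (N.choose i : ℝ))
        ≤ ∑ i ∈ range (D + 1), (m : ℝ) ^ D * ((1 / (m : ℝ)) ^ i * (N.choose i : ℝ)) := by
          apply sum_le_sum
          intro i hi
          rw [mem_range] at hi
          have h4 : (1 : ℝ) ≤ (m : ℝ) ^ D * (1 / (m : ℝ)) ^ i := by
            have : D = (D - i) + i := by omega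
            rw [this, pow_add, mul_assoc, ← mul_pow, mul_one_div_cancel hm0.ne', one_pow, mul_one]
            exact one_le_pow₀ hm'
          calc (N.choose i : ℝ) = 1 * (N.choose i : ℝ) := (one_mul _).symm
            _ ≤ ((m : ℝ) ^ D * (1 / (m : ℝ)) ^ i) * (N.choose i : ℝ) := by gcongr
            _ = _ := by ring
      _ ≤ ∑ i ∈ range (max (D + 1) (N + 1)),
          (m : ℝ) ^ D * ((1 / (m : ℝ)) ^ i * (N.choose i : ℝ)) := by
          apply sum_le_sum_of_subset_of_nonneg
          · exact range_mono (le_max_left _ _)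
          · intros
            positivity
      _ = ∑ i ∈ range (N + 1), (m : ℝ) ^ D * ((1 / (m : ℝ)) ^ i * (N.choose i : ℝ)) := by
          symm
          apply sum_subset (range_mono (le_max_right _ _))
          intro i _ hi
          rw [mem_range, not_lt] at hi
          rw [Nat.choose_eq_zero_of_lt (by omega)]
          simp
  exact h3.trans (by gcongr)

theorem exp_le_pow (y c : ℕ) (x : ℝ) (hx : x ≤ c * y) : Real.exp x ≤ (3 : ℝ) ^ (c * y) := by
  calc Real.exp x ≤ Real.exp ((c * y : ℕ) : ℝ) := by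
        apply Real.exp_le_exp.2
        push_cast
        exact hx
    _ = Real.exp 1 ^ (c * y) := by rw [← Real.exp_nat_mul, mul_one]
    _ ≤ (3 : ℝ) ^ (c * y) := by
        gcongr
        have := Real.exp_one_lt_d9
        linarith

/-- the numerical inequality -/
theorem numeric (T y h : ℕ) (hT : 1 ≤ T) (hy : 1 ≤ y) (hcond : 32 * T * h ≤ 2 ^ T * y) :
    4 * ((∑ i ∈ range (32 * h / 2 ^ T + 1), h.choose i) *
      (h + (h + 32 * h / 2 ^ T).choose (32 * h / 2 ^ T))) ≤ 2 ^ (T + 32 * y) := by
  set m := 2 ^ T with hm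
  set D := 32 * h / m with hD
  have hm1 : 1 ≤ m := Nat.one_le_two_pow
  have hm0 : (0 : ℝ) < m := by exact_mod_cast hm1
  have hTD : T * D ≤ y := by
    have h1 : D * m ≤ 32 * h := Nat.div_mul_le_self _ _
    have h2 : m * (T * D) ≤ m * y := by
      calc m * (T * D) = T * (D * m) := by ring
        _ ≤ T * (32 * h) := by gcongr
        _ = 32 * T * h := by ring
        _ ≤ m * y := hcond
    exact Nat.le_of_mul_le_mul_left h2 hm1
  have hcond' : (32 : ℝ) * T * h ≤ m * y := by exact_mod_cast hcond
  have hT' : (1 : ℝ) ≤ T := by exact_mod_cast hT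
  have hh0 : (0 : ℝ) ≤ h := Nat.cast_nonneg h
  have hhm : (h : ℝ) / m ≤ y / 32 := by
    rw [div_le_div_iff₀ hm0 (by norm_num)]
    nlinarith [mul_le_mul_of_nonneg_right hT' hh0]
  have hDh : (D : ℝ) ≤ 32 * h := by
    have : D ≤ 32 * h := Nat.div_le_self _ _
    exact_mod_cast this
  have hmD : (m : ℝ) ^ D ≤ 2 ^ y := by
    have : m ^ D = 2 ^ (T * D) := by rw [hm, ← pow_mul]
    have h2 : m ^ D ≤ 2 ^ y := by
      rw [this]
      exact Nat.pow_le_pow_right (by norm_num) hTD
    exact_mod_cast h2
  have hB1 : (∑ i ∈ range (D + 1), (h.choose i : ℝ)) ≤ 2 ^ y * 3 ^ (1 * y) := by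
    refine (sum_choose_le h D m hm1).trans ?_
    have h1 : Real.exp ((h : ℝ) / m) ≤ 3 ^ (1 * y) := by
      apply exp_le_pow
      have : (0 : ℝ) ≤ y := Nat.cast_nonneg y
      push_cast
      linarith
    exact mul_le_mul hmD h1 (Real.exp_nonneg _) (by positivity)
  have hB2 : ((h + D).choose D : ℝ) ≤ 2 ^ y * 3 ^ (2 * y) := by
    have h0 : ((h + D).choose D : ℝ) ≤ ∑ i ∈ range (D + 1), ((h + D).choose i : ℝ) := by
      apply single_le_sum (f := fun i => ((h + D).choose i : ℝ))
      · intros
        positivity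
      · simp
    refine h0.trans ((sum_choose_le (h + D) D m hm1).trans ?_)
    have h1 : Real.exp (((h + D : ℕ) : ℝ) / m) ≤ 3 ^ (2 * y) := by
      apply exp_le_pow
      have : (0 : ℝ) ≤ y := Nat.cast_nonneg y
      push_cast
      have h2 : ((h : ℝ) + D) / m ≤ 33 * (h / m) := by
        rw [← mul_div_assoc]
        gcongr
        linarith
      nlinarith
    exact mul_le_mul hmD h1 (Real.exp_nonneg _) (by positivity)
  have hh : (h : ℝ) ≤ m * y := by
    nlinarith [mul_le_mul_of_nonneg_right hT' hh0]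
  have hy2 : (y : ℝ) ≤ 2 ^ y := by
    have : y ≤ 2 ^ y := Nat.lt_two_pow_self.le
    exact_mod_cast this
  have h6 : ((4 * ((∑ i ∈ range (D + 1), h.choose i) * (h + (h + D).choose D)) : ℕ) : ℝ) ≤
      ((2 ^ (T + 32 * y) : ℕ) : ℝ) := by
    push_cast
    have hm' : (m : ℝ) = 2 ^ T := by rw [hm]; push_cast; rfl
    have e1 : (2 : ℝ) ^ y * 3 ^ (1 * y) = 6 ^ y := by rw [one_mul, ← mul_pow]; norm_num
    have e2 : (2 : ℝ) ^ y * 3 ^ (2 * y) = 18 ^ y := by
      rw [pow_mul, ← mul_pow]; norm_num
    rw [e1] at hB1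
    rw [e2] at hB2
    have h1m : (1 : ℝ) ≤ m := by exact_mod_cast hm1
    have h7 : (h : ℝ) + ((h + D).choose D : ℝ) ≤ m * (20 ^ y) := by
      have h8 : (2 : ℝ) ^ y + 18 ^ y ≤ 20 ^ y := by
        have := pow_add_pow_le (show (0 : ℝ) ≤ 2 by norm_num) (show (0 : ℝ) ≤ 18 by norm_num)
          (show y ≠ 0 by omega)
        norm_num at this
        exact this
      calc (h : ℝ) + ((h + D).choose D : ℝ) ≤ m * 2 ^ y + m * 18 ^ y := by
            apply add_le_add
            · exact hh.trans (by gcongr)
            · calc ((h + D).choose D : ℝ) ≤ 1 * 18 ^ y := by rw [one_mul]; exact hB2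
                _ ≤ m * 18 ^ y := by gcongr
        _ = m * (2 ^ y + 18 ^ y) := by ring
        _ ≤ m * 20 ^ y := by gcongr
    calc (4 : ℝ) * ((∑ i ∈ range (D + 1), (h.choose i : ℝ)) * (h + ((h + D).choose D : ℝ)))
        ≤ 4 ^ y * (6 ^ y * (m * 20 ^ y)) := by
          have h9 : (4 : ℝ) ≤ 4 ^ y := by
            calc (4 : ℝ) = 4 ^ 1 := (pow_one _).symm
              _ ≤ 4 ^ y := pow_le_pow_right₀ (by norm_num) hy
          have h10 : (0 : ℝ) ≤ ∑ i ∈ range (D + 1), (h.choose i : ℝ) := by positivity
          gcongr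
      _ = 2 ^ T * (480 : ℝ) ^ y := by
          rw [hm']
          have : (480 : ℝ) ^ y = 4 ^ y * 6 ^ y * 20 ^ y := by
            rw [← mul_pow, ← mul_pow]; norm_num
          rw [this]; ring
      _ ≤ 2 ^ T * (2 ^ 32) ^ y := by gcongr; norm_num
      _ = 2 ^ (T + 32 * y) := by rw [← pow_mul, ← pow_add]
  exact_mod_cast h6

/-- **Homogeneous sets in sparse graphs.** -/
theorem esz (adj : ℕ → ℕ → Prop) [DecidableRel adj] (hs : ∀ x y, adj x y → adj y x)
    (hirr : ∀ x, ¬ adj x x) (U : Finset ℕ) (T y h : ℕ) (hT : 1 ≤ T) (hy : 1 ≤ y) (hh : 1 ≤ h)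
    (hUc : 2 ^ (T + 32 * y) ≤ U.card)
    (hE : 2 ^ T * ∑ v ∈ U, (U.filter fun w => adj v w).card ≤ 4 * U.card ^ 2)
    (hcond : 32 * T * h ≤ 2 ^ T * y) :
    ∃ S ⊆ U, S.card = h ∧ ((∀ x ∈ S, ∀ y ∈ S, x ≠ y → adj x y) ∨
      ∀ x ∈ S, ∀ y ∈ S, x ≠ y → ¬ adj x y) := by
  have hnum := numeric T y h hT hy hcond
  set m := 2 ^ T with hm
  set D := 32 * h / m with hD
  have hm1 : 1 ≤ m := Nat.one_le_two_pow
  set n := U.card with hn
  have hn1 : 1 ≤ n := le_trans Nat.one_le_two_pow hUc
  -- vertices of low degree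
  set U' := U.filter fun v => m * (U.filter fun w => adj v w).card ≤ 8 * n with hU'
  have hU'U : U' ⊆ U := filter_subset _ _
  have hU'c : n ≤ 2 * U'.card := by
    have h1 : (U.filter fun v => ¬ m * (U.filter fun w => adj v w).card ≤ 8 * n).card * (8 * n) ≤
        m * ∑ v ∈ U, (U.filter fun w => adj v w).card := by
      rw [mul_sum]
      calc (U.filter fun v => ¬ m * (U.filter fun w => adj v w).card ≤ 8 * n).card * (8 * n)
          = ∑ v ∈ U.filter fun v => ¬ m * (U.filter fun w => adj v w).card ≤ 8 * n, 8 * n := by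
            rw [sum_const, smul_eq_mul]
        _ ≤ ∑ v ∈ U.filter fun v => ¬ m * (U.filter fun w => adj v w).card ≤ 8 * n,
            m * (U.filter fun w => adj v w).card := by
            apply sum_le_sum
            intro v hv
            have := (mem_filter.1 hv).2
            omega
        _ ≤ _ := sum_le_sum_of_subset (filter_subset _ _)
    have h2 := h1.trans hE
    have h3 : (U.filter fun v => ¬ m * (U.filter fun w => adj v w).card ≤ 8 * n).card * 2 ≤ n := by
      have : (4 * n) * ((U.filter fun v =>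
          ¬ m * (U.filter fun w => adj v w).card ≤ 8 * n).card * 2) ≤ (4 * n) * n := by
        nlinarith
      exact Nat.le_of_mul_le_mul_left this (by omega)
    have h4 := card_filter_add_card_filter_not (s := U)
      (fun v => m * (U.filter fun w => adj v w).card ≤ 8 * n)
    rw [← hU'] at h4
    omega
  -- a maximum independent set
  set F := U'.powerset.filter fun I => ∀ x ∈ I, ∀ y ∈ I, x ≠ y → ¬ adj x y with hF
  obtain ⟨I, hI, hmax⟩ := exists_max_image F card ⟨∅, by simp [hF]⟩
  rw [hF, mem_filter, mem_powerset] at hI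
  have hmax' : ∀ J ⊆ U', (∀ x ∈ J, ∀ y ∈ J, x ≠ y → ¬ adj x y) → J.card ≤ I.card :=
    fun J hJ hJ2 => hmax J (mem_filter.2 ⟨mem_powerset.2 hJ, hJ2⟩)
  rcases le_or_gt h I.card with hhI | hhI
  · obtain ⟨S, hS, hSc⟩ := exists_subset_card_eq hhI
    exact ⟨S, (hS.trans hI.1).trans hU'U, hSc, Or.inr fun x hx y hy => hI.2 x (hS hx) y (hS hy)⟩
  -- vertices with few neighbours in `I`
  set G := U'.filter fun v => m * (I.filter fun w => adj v w).card ≤ 32 * h with hG
  have hGc : n ≤ 4 * G.card := by
    have h0 : ∑ v ∈ U', (I.filter fun w => adj v w).card =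
        ∑ w ∈ I, (U'.filter fun v => adj w v).card := by
      simp only [card_filter]
      rw [sum_comm]
      apply sum_congr rfl
      intro w _
      apply sum_congr rfl
      intro v _
      by_cases h : adj v w
      · rw [if_pos h, if_pos (hs _ _ h)]
      · rw [if_neg h, if_neg (fun h' => h (hs _ _ h'))]
    have h1 : m * ∑ v ∈ U', (I.filter fun w => adj v w).card ≤ I.card * (8 * n) := by
      rw [h0, mul_sum]
      calc ∑ w ∈ I, m * (U'.filter fun v => adj w v).card ≤ ∑ w ∈ I, 8 * n := by
            apply sum_le_sum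
            intro w hw
            have h2 := (mem_filter.1 (hI.1 hw)).2
            refine le_trans ?_ h2
            gcongr
        _ = I.card * (8 * n) := by rw [sum_const, smul_eq_mul]
    have h2 : (U'.filter fun v => ¬ m * (I.filter fun w => adj v w).card ≤ 32 * h).card *
        (32 * h) ≤ m * ∑ v ∈ U', (I.filter fun w => adj v w).card := by
      rw [mul_sum]
      calc (U'.filter fun v => ¬ m * (I.filter fun w => adj v w).card ≤ 32 * h).card * (32 * h)
          = ∑ v ∈ U'.filter fun v => ¬ m * (I.filter fun w => adj v w).card ≤ 32 * h,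
            32 * h := by rw [sum_const, smul_eq_mul]
        _ ≤ ∑ v ∈ U'.filter fun v => ¬ m * (I.filter fun w => adj v w).card ≤ 32 * h,
            m * (I.filter fun w => adj v w).card := by
            apply sum_le_sum
            intro v hv
            have := (mem_filter.1 hv).2
            omega
        _ ≤ _ := sum_le_sum_of_subset (filter_subset _ _)
    have h3 : 4 * (U'.filter fun v =>
        ¬ m * (I.filter fun w => adj v w).card ≤ 32 * h).card ≤ n := by
      have h4 : I.card * (8 * n) ≤ h * (8 * n) := by gcongr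
      have h5 := (h2.trans h1).trans h4
      have : (8 * h) * (4 * (U'.filter fun v =>
          ¬ m * (I.filter fun w => adj v w).card ≤ 32 * h).card) ≤ (8 * h) * n := by
        nlinarith
      exact Nat.le_of_mul_le_mul_left this (by omega)
    have h4 := card_filter_add_card_filter_not (s := U')
      (fun v => m * (I.filter fun w => adj v w).card ≤ 32 * h)
    rw [← hG] at h4
    omega
  -- the traces
  set 𝒯 := (range (D + 1)).biUnion fun i => powersetCard i I with h𝒯
  have h𝒯c : 𝒯.card ≤ ∑ i ∈ range (D + 1), h.choose i := by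
    refine card_biUnion_le.trans (sum_le_sum fun i _ => ?_)
    rw [card_powersetCard]
    exact Nat.choose_le_choose i hhI.le
  have hmaps : ∀ v ∈ G, (fun v => I.filter fun w => adj v w) v ∈ 𝒯 := by
    intro v hv
    have h1 := (mem_filter.1 hv).2
    rw [h𝒯, mem_biUnion]
    refine ⟨(I.filter fun w => adj v w).card, ?_, mem_powersetCard.2 ⟨filter_subset _ _, rfl⟩⟩
    rw [mem_range, Nat.lt_succ_iff, hD, Nat.le_div_iff_mul_le (by omega), mul_comm]
    exact h1
  have h𝒯ne : 𝒯.Nonempty := ⟨∅, by
    rw [h𝒯, mem_biUnion]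
    exact ⟨0, by simp, by simp⟩⟩
  obtain ⟨J, hJ, hJc⟩ := exists_le_card_fiber_of_mul_le_card_of_maps_to hmaps h𝒯ne
    (n := h + (h + D).choose D) (by
      have h1 : 4 * (𝒯.card * (h + (h + D).choose D)) ≤ 4 * G.card := by
        refine le_trans ?_ (hUc.trans hGc)
        refine le_trans ?_ hnum
        gcongr
      omega)
  set W := G.filter fun v => (I.filter fun w => adj v w) = J with hW
  have hJI : J ⊆ I ∧ J.card ≤ D := by
    rw [h𝒯, mem_biUnion] at hJ
    obtain ⟨i, hi, hJ⟩ := hJ
    rw [mem_powersetCard] at hJ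
    rw [mem_range] at hi
    exact ⟨hJ.1, by omega⟩
  have hWU' : W ⊆ U' := (filter_subset _ _).trans (filter_subset _ _)
  -- `J` is not empty
  obtain ⟨w, hwW, hwI⟩ : ∃ w ∈ W, w ∉ I := by
    by_contra hcon
    push Not at hcon
    have h1 := card_le_card (show W ⊆ I from hcon)
    omega
  have hJne : J.Nonempty := by
    by_contra hcon
    rw [not_nonempty_iff_eq_empty] at hcon
    have htr := (mem_filter.1 hwW).2
    rw [hcon] at htr
    have hno : ∀ x ∈ I, ¬ adj w x := by
      intro x hx hwx
      have : x ∈ I.filter fun y => adj w y := mem_filter.2 ⟨hx, hwx⟩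
      rw [htr] at this
      exact notMem_empty _ this
    have h1 := hmax' (insert w I) (insert_subset (hWU' hwW) hI.1) (by
      intro x hx y hy hxy
      rw [mem_insert] at hx hy
      rcases hx with rfl | hx <;> rcases hy with rfl | hy
      · exact absurd rfl hxy
      · exact hno y hy
      · exact fun h => hno x hx (hs _ _ h)
      · exact hI.2 x hx y hy hxy)
    rw [card_insert_of_notMem hwI] at h1
    omega
  have hWI : ∀ x ∈ W, x ∉ I := by
    intro x hx hxI
    have htr := (mem_filter.1 hx).2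
    obtain ⟨j, hj⟩ := hJne
    rw [← htr, mem_filter] at hj
    by_cases hxj : x = j
    · rw [hxj] at hj
      exact hirr _ hj.2
    · exact hI.2 x hxI j hj.1 hxj hj.2
  have hle : (h - 1 + D).choose D ≤ W.card := by
    refine le_trans (Nat.choose_le_choose D (by omega : h - 1 + D ≤ h + D)) ?_
    omega
  rcases szekeres adj hs _ (h - 1) D rfl W hle with ⟨S, hS, hSc, hSa⟩ | ⟨S, hS, hSc, hSa⟩
  · exact ⟨S, (hS.trans hWU').trans hU'U, by omega, Or.inl hSa⟩
  · exfalso
    have hdisj : Disjoint (I \ J) S := by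
      rw [disjoint_left]
      intro x hx hxS
      exact hWI x (hS hxS) (mem_sdiff.1 hx).1
    have hcross : ∀ x ∈ S, ∀ y ∈ I \ J, ¬ adj x y := by
      intro x hx y hy hxy
      have htr := (mem_filter.1 (hS hx)).2
      rw [mem_sdiff] at hy
      apply hy.2
      rw [← htr]
      exact mem_filter.2 ⟨hy.1, hxy⟩
    have h1 := hmax' ((I \ J) ∪ S) (union_subset (sdiff_subset.trans hI.1) (hS.trans hWU')) (by
      intro x hx y hy hxy
      rw [mem_union] at hx hy
      rcases hx with hx | hx <;> rcases hy with hy | hy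
      · exact hI.2 x (mem_sdiff.1 hx).1 y (mem_sdiff.1 hy).1 hxy
      · exact fun h => hcross y hy x hx (hs _ _ h)
      · exact hcross x hx y hy
      · exact hSa x hx y hy hxy)
    rw [card_union_of_disjoint hdisj, hSc, card_sdiff_of_subset hJI.1] at h1
    have h2 := card_le_card hJI.1
    have h3 := hJI.2
    omega

end Pool.Agent.U547.EHT
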