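import Pool.Agent.U547.EHT.Pair
import Pool.Agent.U547.EHT.Esz

/-!
# Ordered graphs without a given ordered pattern: large homogeneous sets (Fox–Sudakov, Prömel–Rödl)
-/

namespace Pool.Agent.U547.EHT

open Finset

/-- `t` consecutive blocks of size `M` in `Y`, pairwise of density at most `1 / Q` in the colour
`τ`. -/
def Fam (d : ℕ → ℕ → Bool) (τ : Bool) (Q M t : ℕ) (Y : Finset ℕ) : Prop :=
  ∃ S : ℕ → Finset ℕ, (∀ i < t, S i ⊆ Y) ∧ (∀ i < t, (S i).card = M) ∧ Blocks t S ∧
    ∀ i j, i < j → j < t → Q * ((S i ×ˢ S j).filter fun p => d p.1 p.2 = τ).card ≤ M * M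

theorem Fam.mono {d : ℕ → ℕ → Bool} {τ : Bool} {Q M t : ℕ} {Y Y' : Finset ℕ} (h : Y ⊆ Y')
    (hF : Fam d τ Q M t Y) : Fam d τ Q M t Y' := by
  obtain ⟨S, h1, h2⟩ := hF
  exact ⟨S, fun i hi => (h1 i hi).trans h, h2⟩

theorem fam_one (d : ℕ → ℕ → Bool) (τ : Bool) (Q M : ℕ) (Y : Finset ℕ) (h : M ≤ Y.card) :
    Fam d τ Q M (2 ^ 0) Y := by
  obtain ⟨S, hS, hSc⟩ := exists_subset_card_eq h
  refine ⟨fun _ => S, fun _ _ => hS, fun _ _ => hSc, ?_, ?_⟩
  · intro i j hij hj
    omega
  · intro i j hij hj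
    omega

theorem fam_join (d : ℕ → ℕ → Bool) (τ : Bool) (Q M t q : ℕ) (A B : Finset ℕ)
    (hAB : ∀ a ∈ A, ∀ b ∈ B, a < b) (hq : Q * (2 * t) ≤ q) (ht : 1 ≤ t) (hM : 1 ≤ M)
    (hsp : ∀ a ∈ A, q * (B.filter fun b => d a b = τ).card ≤ B.card)
    (hA : Fam d τ Q M t A) : ∃ B' ⊆ B, B.card ≤ 2 * B'.card ∧
      (Fam d τ Q M t B' → Fam d τ Q M (2 * t) (A ∪ B)) := by
  obtain ⟨S, hS1, hS2, hS3, hS4⟩ := hA
  set UU := (range t).biUnion S with hUU
  have hUUA : UU ⊆ A := by
    intro x hx
    rw [hUU, mem_biUnion] at hx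
    obtain ⟨i, hi, hx⟩ := hx
    exact hS1 i (mem_range.1 hi) hx
  have hUUc : UU.card ≤ t * M := by
    refine card_biUnion_le.trans ?_
    rw [sum_congr rfl (fun i hi => hS2 i (mem_range.1 hi)), sum_const, card_range, smul_eq_mul]
  set B' := B.filter fun b => q * (UU.filter fun u => d u b = τ).card ≤ 2 * (t * M) with hB'
  refine ⟨B', filter_subset _ _, ?_, ?_⟩
  · have h0 : ∑ b ∈ B, (UU.filter fun u => d u b = τ).card =
        ∑ u ∈ UU, (B.filter fun b => d u b = τ).card := by
      simp only [card_filter]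
      rw [sum_comm]
    have h1 : ∑ b ∈ B, q * (UU.filter fun u => d u b = τ).card ≤ (t * M) * B.card := by
      rw [← mul_sum, h0, mul_sum]
      calc ∑ u ∈ UU, q * (B.filter fun b => d u b = τ).card ≤ ∑ u ∈ UU, B.card :=
            sum_le_sum fun u hu => hsp u (hUUA hu)
        _ = UU.card * B.card := by rw [sum_const, smul_eq_mul]
        _ ≤ (t * M) * B.card := by gcongr
    have h2 : (B.filter fun b => ¬ q * (UU.filter fun u => d u b = τ).card ≤ 2 * (t * M)).card *
        (2 * (t * M)) ≤ ∑ b ∈ B, q * (UU.filter fun u => d u b = τ).card := by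
      calc (B.filter fun b => ¬ q * (UU.filter fun u => d u b = τ).card ≤ 2 * (t * M)).card *
          (2 * (t * M)) = ∑ b ∈ B.filter fun b =>
            ¬ q * (UU.filter fun u => d u b = τ).card ≤ 2 * (t * M), 2 * (t * M) := by
            rw [sum_const, smul_eq_mul]
        _ ≤ ∑ b ∈ B.filter fun b => ¬ q * (UU.filter fun u => d u b = τ).card ≤ 2 * (t * M),
            q * (UU.filter fun u => d u b = τ).card := by
            apply sum_le_sum
            intro v hv
            have := (mem_filter.1 hv).2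
            omega
        _ ≤ _ := sum_le_sum_of_subset (filter_subset _ _)
    have h3 : 2 * (B.filter fun b =>
        ¬ q * (UU.filter fun u => d u b = τ).card ≤ 2 * (t * M)).card ≤ B.card := by
      have h4 := h2.trans h1
      have : (t * M) * (2 * (B.filter fun b =>
        ¬ q * (UU.filter fun u => d u b = τ).card ≤ 2 * (t * M)).card) ≤ (t * M) * B.card := by
        nlinarith
      exact Nat.le_of_mul_le_mul_left this (by positivity)
    have h4 := card_filter_add_card_filter_not (s := B)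
      (fun b => q * (UU.filter fun u => d u b = τ).card ≤ 2 * (t * M))
    rw [← hB'] at h4
    omega
  · rintro ⟨T, hT1, hT2, hT3, hT4⟩
    have hTB : ∀ i < t, T i ⊆ B := fun i hi => (hT1 i hi).trans (filter_subset _ _)
    set R : ℕ → Finset ℕ := fun i => if i < t then S i else T (i - t) with hR
    have hR1 : ∀ i < t, R i = S i := fun i hi => by simp only [hR, hi, if_true]
    have hR2 : ∀ i, t ≤ i → R i = T (i - t) := fun i hi => by
      simp only [hR, not_lt.2 hi, if_false]
    refine ⟨R, ?_, ?_, ?_, ?_⟩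
    · intro i hi
      rcases lt_or_ge i t with h | h
      · rw [hR1 i h]
        exact (hS1 i h).trans subset_union_left
      · rw [hR2 i h]
        exact (hTB _ (by omega)).trans subset_union_right
    · intro i hi
      rcases lt_or_ge i t with h | h
      · rw [hR1 i h]
        exact hS2 i h
      · rw [hR2 i h]
        exact hT2 _ (by omega)
    · intro i j hij hj a ha b hb
      rcases lt_or_ge i t with h | h <;> rcases lt_or_ge j t with h' | h'
      · rw [hR1 i h] at ha
        rw [hR1 j h'] at hb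
        exact hS3 i j hij h' a ha b hb
      · rw [hR1 i h] at ha
        rw [hR2 j h'] at hb
        exact hAB a (hS1 i h ha) b (hTB _ (by omega) hb)
      · omega
      · rw [hR2 i h] at ha
        rw [hR2 j h'] at hb
        exact hT3 _ _ (by omega) (by omega) a ha b hb
    · intro i j hij hj
      rcases lt_or_ge i t with h | h <;> rcases lt_or_ge j t with h' | h'
      · rw [hR1 i h, hR1 j h']
        exact hS4 i j hij h'
      · rw [hR1 i h, hR2 j h']
        have hjt : j - t < t := by omega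
        have h0 : ((S i ×ˢ T (j - t)).filter fun p => d p.1 p.2 = τ).card =
            ∑ b ∈ T (j - t), ((S i).filter fun u => d u b = τ).card := by
          simp only [card_filter]
          rw [sum_product_right]
        have h1 : q * ((S i ×ˢ T (j - t)).filter fun p => d p.1 p.2 = τ).card ≤
            M * (2 * (t * M)) := by
          rw [h0, mul_sum]
          calc ∑ b ∈ T (j - t), q * ((S i).filter fun u => d u b = τ).card
              ≤ ∑ b ∈ T (j - t), 2 * (t * M) := by
                apply sum_le_sum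
                intro b hb
                have h2 := (mem_filter.1 (hT1 _ hjt hb)).2
                refine le_trans ?_ h2
                gcongr
                rw [hUU]
                exact subset_biUnion_of_mem S (mem_range.2 h)
            _ = M * (2 * (t * M)) := by rw [sum_const, hT2 _ hjt, smul_eq_mul]
        have h2 : (2 * t) * (Q * ((S i ×ˢ T (j - t)).filter fun p => d p.1 p.2 = τ).card) ≤
            (2 * t) * (M * M) := by
          calc (2 * t) * (Q * ((S i ×ˢ T (j - t)).filter fun p => d p.1 p.2 = τ).card)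
              = (Q * (2 * t)) * ((S i ×ˢ T (j - t)).filter fun p => d p.1 p.2 = τ).card := by ring
            _ ≤ q * ((S i ×ˢ T (j - t)).filter fun p => d p.1 p.2 = τ).card := by gcongr
            _ ≤ M * (2 * (t * M)) := h1
            _ = (2 * t) * (M * M) := by ring
        exact Nat.le_of_mul_le_mul_left h2 (by omega)
      · omega
      · rw [hR2 i h, hR2 j h']
        exact hT4 _ _ (by omega) (by omega)

theorem fam_rec (d : ℕ → ℕ → Bool) (k : ℕ) (P : ℕ → ℕ → Bool) (X₀ : Finset ℕ)
    (hP : ¬ PairCopy d X₀ k P) (hk : 1 ≤ k) (Q M T : ℕ) (hQ : 1 ≤ Q) (hM : 1 ≤ M) :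
    ∀ s p p', p + p' = s → p ≤ T → p' ≤ T → ∀ X ⊆ X₀,
      (k * (2 * (k + 1) * (Q * 2 ^ (T + 1)) ^ k)) ^ s * M ≤ X.card →
      Fam d true Q M (2 ^ p) X ∨ Fam d false Q M (2 ^ p') X := by
  set q := Q * 2 ^ (T + 1) with hqdef
  have hq1 : 1 ≤ q := Nat.succ_le_of_lt (by positivity)
  set K := k * (2 * (k + 1) * q ^ k) with hK
  have hK1 : 1 ≤ K := Nat.succ_le_of_lt (by positivity)
  intro s
  induction s with
  | zero =>
    intro p p' hpp _ _ X _ hX
    obtain ⟨rfl, rfl⟩ : p = 0 ∧ p' = 0 := by omega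
    left
    exact fam_one _ _ _ _ _ (by simpa using hX)
  | succ s ih =>
    intro p p' hpp hp hp' X hX hXc
    have hMX : M ≤ X.card := by
      refine le_trans ?_ hXc
      exact Nat.le_mul_of_pos_left _ (by positivity)
    rcases Nat.eq_zero_or_pos p with rfl | hp0
    · exact Or.inl (fam_one _ _ _ _ _ hMX)
    rcases Nat.eq_zero_or_pos p' with rfl | hp'0
    · exact Or.inr (fam_one _ _ _ _ _ hMX)
    obtain ⟨p, rfl⟩ : ∃ r, p = r + 1 := ⟨p - 1, by omega⟩
    obtain ⟨p', rfl⟩ : ∃ r, p' = r + 1 := ⟨p' - 1, by omega⟩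
    have hm1 : 1 ≤ K ^ s * M := Nat.succ_le_of_lt (by positivity)
    obtain ⟨V, hV, hVX, hVc⟩ := exists_blocks X k (2 * (k + 1) * q ^ k * (K ^ s * M)) (by
      refine le_trans (le_of_eq ?_) hXc
      rw [pow_succ, hK]
      ring)
    rcases embed d q (K ^ s * M) hq1 hm1 k P V hV (fun i hi => (hVc i hi).ge) with
      ⟨v, hv, hv2⟩ | ⟨i, j, A, B, hij, hj, hA, hB, hA2, hB2, hsp⟩
    · exact absurd ⟨v, fun i hi => hX (hVX i hi (hv i hi)), fun i j hij hj =>
        ⟨hV i j hij hj _ (hv i (by omega)) _ (hv j hj), hv2 i j hij hj⟩⟩ hP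
    have hAX : A ⊆ X := hA.trans (hVX i (by omega))
    have hBX : B ⊆ X := hB.trans (hVX j hj)
    have hAB : ∀ a ∈ A, ∀ b ∈ B, a < b := fun a ha b hb => hV i j hij hj a (hA ha) b (hB hb)
    have hqle : ∀ r, r ≤ T → Q * (2 * 2 ^ r) ≤ q := by
      intro r hr
      rw [hqdef]
      gcongr
      rw [← pow_succ']
      exact Nat.pow_le_pow_right (by norm_num) (by omega)
    cases hτ : P i j with
    | true =>
      rcases ih p (p' + 1) (by omega) (by omega) hp' A (hAX.trans hX) hA2 with h | h
      · obtain ⟨B', hB', hB'c, hjoin⟩ := fam_join d true Q M (2 ^ p) q A B hAB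
          (hqle p (by omega)) Nat.one_le_two_pow hM
          (fun a ha => by have := hsp a ha; rwa [hτ] at this) h
        rcases ih p (p' + 1) (by omega) (by omega) hp' B' ((hB'.trans hBX).trans hX)
          (by omega) with h' | h'
        · left
          rw [pow_succ']
          exact (hjoin h').mono (union_subset hAX hBX)
        · exact Or.inr (h'.mono (hB'.trans hBX))
      · exact Or.inr (h.mono hAX)
    | false =>
      rcases ih (p + 1) p' (by omega) hp (by omega) A (hAX.trans hX) hA2 with h | h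
      · exact Or.inl (h.mono hAX)
      · obtain ⟨B', hB', hB'c, hjoin⟩ := fam_join d false Q M (2 ^ p') q A B hAB
          (hqle p' (by omega)) Nat.one_le_two_pow hM
          (fun a ha => by have := hsp a ha; rwa [hτ] at this) h
        rcases ih (p + 1) p' (by omega) hp (by omega) B' ((hB'.trans hBX).trans hX)
          (by omega) with h' | h'
        · exact Or.inl (h'.mono (hB'.trans hBX))
        · right
          rw [pow_succ']
          exact (hjoin h').mono (union_subset hAX hBX)

/-- From a family of blocks to a homogeneous set. -/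
theorem hom_of_fam (d : ℕ → ℕ → Bool) (τ : Bool) (T y h : ℕ) (hT : 1 ≤ T) (hy : 1 ≤ y)
    (hh : 1 ≤ h) (hcond : 32 * T * h ≤ 2 ^ T * y) (Y : Finset ℕ)
    (hF : Fam d τ (2 ^ T) (2 ^ (32 * y)) (2 ^ T) Y) :
    ∃ S ⊆ Y, S.card = h ∧ ∃ b : Bool, ∀ x ∈ S, ∀ y ∈ S, x < y → d x y = b := by
  obtain ⟨S, hS1, hS2, hS3, hS4⟩ := hF
  set t := 2 ^ T with ht
  set M := 2 ^ (32 * y) with hM
  set adj : ℕ → ℕ → Prop := fun a b => (a < b ∧ d a b = τ) ∨ (b < a ∧ d b a = τ) with hadj
  have hs : ∀ x y, adj x y → adj y x := fun x y h => h.symm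
  have hirr : ∀ x, ¬ adj x x := by
    rintro x (h | h) <;> exact lt_irrefl _ h.1
  set U := (range t).biUnion S with hU
  have hdisj : ∀ i ∈ range t, ∀ j ∈ range t, i ≠ j → Disjoint (S i) (S j) := by
    intro i hi j hj hij
    rw [mem_range] at hi hj
    rw [disjoint_left]
    intro x hx hx'
    rcases lt_or_gt_of_ne hij with h | h
    · exact lt_irrefl _ (hS3 i j h hj x hx x hx')
    · exact lt_irrefl _ (hS3 j i h hi x hx' x hx)
  have hUc : U.card = t * M := by
    rw [hU, card_biUnion hdisj, sum_congr rfl (fun i hi => hS2 i (mem_range.1 hi)), sum_const,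
      card_range, smul_eq_mul]
  have hUY : U ⊆ Y := by
    intro x hx
    rw [hU, mem_biUnion] at hx
    obtain ⟨i, hi, hx⟩ := hx
    exact hS1 i (mem_range.1 hi) hx
  -- the number of edges
  set e : ℕ → ℕ → ℕ := fun i j => ∑ v ∈ S i, ((S j).filter fun w => adj v w).card with he
  have hdeg : ∑ v ∈ U, (U.filter fun w => adj v w).card ≤
      ∑ i ∈ range t, ∑ j ∈ range t, e i j := by
    rw [hU, sum_biUnion hdisj]
    apply sum_le_sum
    intro i _
    rw [he, sum_comm]
    apply sum_le_sum
    intro v _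
    rw [filter_biUnion]
    exact card_biUnion_le
  have hM1 : 1 ≤ M := Nat.one_le_two_pow
  have hee : ∀ i < t, e i i ≤ M * M := by
    intro i hi
    calc e i i ≤ ∑ v ∈ S i, M := by
          apply sum_le_sum
          intro v _
          refine (card_filter_le _ _).trans ?_
          rw [hS2 i hi]
      _ = M * M := by rw [sum_const, hS2 i hi, smul_eq_mul]
  have hij1 : ∀ i j, i < j → j < t → t * e i j ≤ M * M := by
    intro i j hij hj
    refine le_trans ?_ (hS4 i j hij hj)
    gcongr
    have : ((S i ×ˢ S j).filter fun p => d p.1 p.2 = τ).card =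
        ∑ v ∈ S i, ((S j).filter fun w => d v w = τ).card := by
      simp only [card_filter]
      rw [sum_product]
    rw [this]
    apply sum_le_sum
    intro v hv
    apply card_le_card
    intro w hw
    rw [mem_filter] at hw ⊢
    refine ⟨hw.1, ?_⟩
    have h1 := hS3 i j hij hj v hv w hw.1
    rcases hw.2 with h | h
    · exact h.2
    · omega
  have hij2 : ∀ i j, i < j → j < t → e j i = e i j := by
    intro i j _ _
    simp only [he, card_filter]
    rw [sum_comm]
    apply sum_congr rfl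
    intro v _
    apply sum_congr rfl
    intro w _
    by_cases h : adj w v
    · rw [if_pos h, if_pos (hs _ _ h)]
    · rw [if_neg h, if_neg (fun h' => h (hs _ _ h'))]
  have hE : t * ∑ v ∈ U, (U.filter fun w => adj v w).card ≤ 4 * U.card ^ 2 := by
    have h1 : t * ∑ i ∈ range t, ∑ j ∈ range t, e i j ≤
        ∑ i ∈ range t, ∑ j ∈ range t, (M * M + if i = j then t * (M * M) else 0) := by
      rw [mul_sum]
      apply sum_le_sum
      intro i hi
      rw [mul_sum]
      apply sum_le_sum
      intro j hj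
      rw [mem_range] at hi hj
      rcases lt_trichotomy i j with h | h | h
      · exact (hij1 i j h hj).trans (Nat.le_add_right _ _)
      · subst h
        rw [if_pos rfl]
        have := Nat.mul_le_mul_left t (hee i hi)
        omega
      · rw [hij2 j i h hi]
        exact (hij1 j i h hi).trans (Nat.le_add_right _ _)
    have h2 : ∑ i ∈ range t, ∑ j ∈ range t, (M * M + if i = j then t * (M * M) else 0) =
        2 * (t * M) ^ 2 := by
      have : ∀ i ∈ range t, ∑ j ∈ range t, (M * M + if i = j then t * (M * M) else 0) =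
          t * (M * M) + t * (M * M) := by
        intro i hi
        rw [sum_add_distrib, sum_const, card_range, smul_eq_mul, sum_ite_eq, if_pos hi]
      rw [sum_congr rfl this, sum_const, card_range, smul_eq_mul]
      ring
    rw [hUc]
    calc t * ∑ v ∈ U, (U.filter fun w => adj v w).card
        ≤ t * ∑ i ∈ range t, ∑ j ∈ range t, e i j := by gcongr
      _ ≤ 2 * (t * M) ^ 2 := h2 ▸ h1
      _ ≤ 4 * (t * M) ^ 2 := by gcongr; norm_num
  obtain ⟨Z, hZ, hZc, hZ2⟩ := esz adj hs hirr U T y h hT hy hh (by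
    rw [hUc, ht, hM, ← pow_add]) hE hcond
  refine ⟨Z, hZ.trans hUY, hZc, ?_⟩
  rcases hZ2 with hZ2 | hZ2
  · refine ⟨τ, fun a ha b hb hab => ?_⟩
    rcases hZ2 a ha b hb hab.ne with h | h
    · exact h.2
    · omega
  · refine ⟨!τ, fun a ha b hb hab => ?_⟩
    have h1 := hZ2 a ha b hb hab.ne
    have h2 : d a b ≠ τ := fun h => h1 (Or.inl ⟨hab, h⟩)
    cases hd : d a b <;> cases τ <;> simp_all

/-- **Ordered graphs without a given ordered pattern on `k` vertices.** -/
theorem pair_theorem2 (d : ℕ → ℕ → Bool) (k T y h : ℕ) (hk : 1 ≤ k) (hT : 1 ≤ T) (hy : 1 ≤ y)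
    (hh : 1 ≤ h) (hcond : 32 * T * h ≤ 2 ^ T * y) (P : ℕ → ℕ → Bool)
    (X : Finset ℕ) (hX : 2 ^ (32 * y + 10 * k * T ^ 2) ≤ X.card) :
    PairCopy d X k P ∨ ∃ S ⊆ X, S.card = h ∧ ∃ b : Bool, ∀ x ∈ S, ∀ y ∈ S, x < y → d x y = b := by
  by_cases hP : PairCopy d X k P
  · exact Or.inl hP
  right
  have hsize : (k * (2 * (k + 1) * (2 ^ T * 2 ^ (T + 1)) ^ k)) ^ (2 * T) * 2 ^ (32 * y) ≤
      X.card := by
    refine le_trans ?_ hX
    have h1 : k * (2 * (k + 1) * (2 ^ T * 2 ^ (T + 1)) ^ k) ≤ 2 ^ ((2 * T + 3) * k) := by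
      calc k * (2 * (k + 1) * (2 ^ T * 2 ^ (T + 1)) ^ k)
          = (2 * k * (k + 1)) * (2 ^ T * 2 ^ (T + 1)) ^ k := by ring
        _ ≤ 2 ^ (2 * k) * (2 ^ T * 2 ^ (T + 1)) ^ k := by
            gcongr
            exact two_mul_le k
        _ = 2 ^ ((2 * T + 3) * k) := by
            rw [← pow_add, ← pow_mul, ← pow_add]
            congr 1
            ring
    calc (k * (2 * (k + 1) * (2 ^ T * 2 ^ (T + 1)) ^ k)) ^ (2 * T) * 2 ^ (32 * y)
        ≤ (2 ^ ((2 * T + 3) * k)) ^ (2 * T) * 2 ^ (32 * y) := by gcongr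
      _ = 2 ^ ((2 * T + 3) * k * (2 * T) + 32 * y) := by rw [← pow_mul, ← pow_add]
      _ ≤ 2 ^ (32 * y + 10 * k * T ^ 2) := by
          apply Nat.pow_le_pow_right (by norm_num)
          have h2 : (2 * T + 3) * (2 * T) ≤ 10 * T ^ 2 := by nlinarith
          have h3 : (2 * T + 3) * k * (2 * T) = k * ((2 * T + 3) * (2 * T)) := by ring
          have h4 : 10 * k * T ^ 2 = k * (10 * T ^ 2) := by ring
          rw [h3, h4]
          have := Nat.mul_le_mul_left k h2
          omega
  rcases fam_rec d k P X hP hk (2 ^ T) (2 ^ (32 * y)) T Nat.one_le_two_pow Nat.one_le_two_pow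
    (2 * T) T T (by ring) le_rfl le_rfl X subset_rfl hsize with h' | h'
  · exact hom_of_fam d true T y h hT hy hh hcond X h'
  · exact hom_of_fam d false T y h hT hy hh hcond X h'

end Pool.Agent.U547.EHT
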