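import Pool.Agent.U547.EHT.Pair

/-!
# Reduction from `r`-sets to pairs (Erdős–Rado), keeping track of lifted patterns
-/

namespace Pool.Agent.U547.EHT

open Finset

/-- The tower `2 ^ (2 ^ (… ^ x))` with `s` twos. -/
def tow : ℕ → ℕ → ℕ
  | 0, x => x
  | s + 1, x => 2 ^ tow s x

theorem tow_mono {x y : ℕ} (h : x ≤ y) : ∀ s, tow s x ≤ tow s y
  | 0 => h
  | s + 1 => Nat.pow_le_pow_right (by norm_num) (tow_mono h s)

theorem tow_succ' (s x : ℕ) : tow (s + 1) x = tow s (2 ^ x) := by
  induction s with
  | zero => rfl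
  | succ s ih =>
    show 2 ^ tow (s + 1) x = 2 ^ tow s (2 ^ x)
    rw [ih]

theorem le_tow (x : ℕ) : ∀ s, x ≤ tow s x
  | 0 => le_rfl
  | s + 1 => (le_tow x s).trans Nat.lt_two_pow_self.le

/-- The colour of a set with `p + 1` elements of `V` does not depend on its largest element. -/
def EndHom (c : Finset ℕ → Bool) (p : ℕ) (V : Finset ℕ) : Prop :=
  ∀ A ⊆ V, A.card = p → ∀ x ∈ V, ∀ y ∈ V, (∀ a ∈ A, a < x) → (∀ a ∈ A, a < y) →
    c (insert x A) = c (insert y A)

theorem endHom_aux (c : Finset ℕ → Bool) (p m : ℕ) (hp : 1 ≤ p) (X : Finset ℕ)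
    (hX : (2 ^ (m ^ p + 1)) ^ m ≤ X.card) : ∀ i ≤ m, ∃ V S : Finset ℕ, V ⊆ X ∧ S ⊆ X ∧
      (∀ v ∈ V, ∀ s ∈ S, v < s) ∧ V.card = i ∧ (2 ^ (m ^ p + 1)) ^ (m - i) ≤ S.card ∧
      ∀ A ⊆ V, A.card = p → ∀ x ∈ V ∪ S, ∀ y ∈ V ∪ S, (∀ a ∈ A, a < x) → (∀ a ∈ A, a < y) →
        c (insert x A) = c (insert y A) := by
  intro i
  induction i with
  | zero =>
    intro _
    refine ⟨∅, X, empty_subset _, subset_rfl, by simp, rfl, by simpa using hX, ?_⟩
    intro A hA hA2
    rw [subset_empty.1 hA, card_empty] at hA2
    omega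
  | succ i ih =>
    intro him
    obtain ⟨V, S, hV, hS, hVS, hVc, hSc, hend⟩ := ih (by omega)
    set B : ℕ := 2 ^ (m ^ p + 1) with hB
    have hB2 : B ^ (m - i) = 2 * 2 ^ (m ^ p) * B ^ (m - (i + 1)) := by
      have : m - i = (m - (i + 1)) + 1 := by omega
      rw [this, pow_succ, hB, pow_succ 2 (m ^ p)]
      ring
    have hBpos : 1 ≤ 2 ^ (m ^ p) * B ^ (m - (i + 1)) := by
      apply Nat.succ_le_of_lt
      positivity
    have hSne : S.Nonempty := by
      apply card_pos.1
      refine lt_of_lt_of_le ?_ hSc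
      positivity
    set v := S.min' hSne with hv
    have hvS : v ∈ S := min'_mem _ _
    have hvlt : ∀ s ∈ S.erase v, v < s := by
      intro s hs
      rw [mem_erase] at hs
      exact lt_of_le_of_ne (min'_le _ _ hs.2) hs.1.symm
    have hvV : v ∉ V := fun h => lt_irrefl _ (hVS v h v hvS)
    set V' := insert v V with hV'
    have hV'c : V'.card = i + 1 := by rw [hV', card_insert_of_notMem hvV, hVc]
    have hmaps : ∀ x ∈ S.erase v, (fun x => (powersetCard p V').filter fun A =>
        c (insert x A) = true) x ∈ (powersetCard p V').powerset := by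
      intro x _
      simp only [mem_powerset]
      exact filter_subset _ _
    obtain ⟨T, _, hT2⟩ := exists_le_card_fiber_of_mul_le_card_of_maps_to hmaps
      ⟨∅, by simp⟩ (n := B ^ (m - (i + 1))) (by
        rw [card_powerset, card_powersetCard, hV'c, card_erase_of_mem hvS]
        have h1 : (i + 1).choose p ≤ m ^ p :=
          (Nat.choose_le_pow (i + 1) p).trans (Nat.pow_le_pow_left (by omega) p)
        have h2 : 2 ^ ((i + 1).choose p) ≤ 2 ^ (m ^ p) := Nat.pow_le_pow_right (by norm_num) h1
        have h3 : 2 ^ ((i + 1).choose p) * B ^ (m - (i + 1)) ≤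
            2 ^ (m ^ p) * B ^ (m - (i + 1)) := by gcongr
        rw [hB2] at hSc
        have h4 : 2 * 2 ^ (m ^ p) * B ^ (m - (i + 1)) =
          2 * (2 ^ (m ^ p) * B ^ (m - (i + 1))) := by ring
        omega)
    set S' := (S.erase v).filter fun x => ((powersetCard p V').filter fun A =>
        c (insert x A) = true) = T with hS'
    refine ⟨V', S', ?_, ?_, ?_, hV'c, hT2, ?_⟩
    · rw [hV']
      exact insert_subset (hS hvS) hV
    · exact ((filter_subset _ _).trans (erase_subset _ _)).trans hS
    · intro a ha s hs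
      have hs1 : s ∈ S.erase v := (mem_filter.1 hs).1
      rw [hV', mem_insert] at ha
      rcases ha with rfl | ha
      · exact hvlt s hs1
      · exact hVS a ha s (mem_of_mem_erase hs1)
    · intro A hA hAc x hx y hy hxA hyA
      by_cases hvA : v ∈ A
      · -- `x` and `y` are in `S'`
        have hmem : ∀ x ∈ V' ∪ S', (∀ a ∈ A, a < x) → x ∈ S' := by
          intro x hx hxA
          rw [mem_union] at hx
          rcases hx with hx | hx
          · exfalso
            have h1 := hxA v hvA
            rw [hV', mem_insert] at hx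
            rcases hx with rfl | hx
            · exact lt_irrefl _ h1
            · exact lt_asymm h1 (hVS x hx v hvS)
          · exact hx
        have h1 := (mem_filter.1 (hmem x hx hxA)).2
        have h2 := (mem_filter.1 (hmem y hy hyA)).2
        have h3 : A ∈ (powersetCard p V').filter (fun A => c (insert x A) = true) ↔
            A ∈ (powersetCard p V').filter (fun A => c (insert y A) = true) := by
          rw [h1, h2]
        simp only [mem_filter, mem_powersetCard, hA, hAc, true_and, and_self] at h3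
        exact Bool.eq_iff_iff.2 h3
      · have hAV : A ⊆ V := by
          intro a ha
          have := hA ha
          rw [hV', mem_insert] at this
          rcases this with rfl | h
          · exact absurd ha hvA
          · exact h
        have hsub : V' ∪ S' ⊆ V ∪ S := by
          intro z hz
          rw [mem_union] at hz ⊢
          rcases hz with hz | hz
          · rw [hV', mem_insert] at hz
            rcases hz with rfl | hz
            · exact Or.inr hvS
            · exact Or.inl hz
          · exact Or.inr (mem_of_mem_erase (mem_filter.1 hz).1)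
        exact hend A hAV hAc x (hsub hx) y (hsub hy) hxA hyA

theorem exists_endHom (c : Finset ℕ → Bool) (p m : ℕ) (hp : 1 ≤ p) (X : Finset ℕ)
    (hX : 2 ^ ((m + 1) ^ (p + 1)) ≤ X.card) : ∃ V ⊆ X, V.card = m ∧ EndHom c p V := by
  obtain ⟨V, S, hV, -, -, hVc, -, hend⟩ := endHom_aux c p m hp X (by
    refine le_trans ?_ hX
    rw [← pow_mul]
    apply Nat.pow_le_pow_right (by norm_num)
    have h1 : m ^ p + 1 ≤ (m + 1) ^ p := by
      obtain ⟨p, rfl⟩ : ∃ p', p = p' + 1 := ⟨p - 1, by omega⟩
      have h2 : m ^ p ≤ (m + 1) ^ p := Nat.pow_le_pow_left (by omega) p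
      have h3 : 1 ≤ (m + 1) ^ p := Nat.one_le_pow _ _ (by omega)
      calc m ^ (p + 1) + 1 = m ^ p * m + 1 := by rw [pow_succ]
        _ ≤ (m + 1) ^ p * m + (m + 1) ^ p := by
            have := Nat.mul_le_mul_right m h2
            omega
        _ = (m + 1) ^ (p + 1) := by ring
    calc (m ^ p + 1) * m ≤ (m + 1) ^ p * (m + 1) := Nat.mul_le_mul h1 (by omega)
      _ = (m + 1) ^ (p + 1) := by rw [pow_succ]) m le_rfl
  exact ⟨V, hV, hVc, fun A hA hAc x hx y hy h1 h2 =>
    hend A hA hAc x (mem_union_left _ hx) y (mem_union_left _ hy) h1 h2⟩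

/-- the number of vertices needed -/
def F : ℕ → ℕ → ℕ
  | 0, m => m
  | s + 1, m => 2 ^ ((F s m + 2) ^ (s + 3))

/-- The colour of a set of `s + 2` vertices is given by a colouring of the pairs, applied to its two
smallest elements. -/
def Lifted (c : Finset ℕ → Bool) (s : ℕ) (Y : Finset ℕ) (d : ℕ → ℕ → Bool) : Prop :=
  ∀ e ⊆ Y, e.card = s + 2 → ∀ a ∈ e, ∀ b ∈ e, a < b → (∀ x ∈ e, x = a ∨ b ≤ x) → c e = d a b

theorem red : ∀ (s m : ℕ) (c : Finset ℕ → Bool) (X : Finset ℕ), F s m ≤ X.card →
    ∃ W U : Finset ℕ, W ⊆ X ∧ U ⊆ X ∧ W.card = m ∧ U.card = s ∧ (∀ w ∈ W, ∀ u ∈ U, w < u) ∧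
      ∃ d, Lifted c s (W ∪ U) d := by
  intro s
  induction s with
  | zero =>
    intro m c X hX
    obtain ⟨W, hW, hWc⟩ := exists_subset_card_eq (show m ≤ X.card from hX)
    refine ⟨W, ∅, hW, empty_subset _, hWc, rfl, by simp, fun a b => c {a, b}, ?_⟩
    intro e _ hec a ha b hb hab _
    have : ({a, b} : Finset ℕ) = e := by
      apply eq_of_subset_of_card_le
      · intro x hx
        simp only [mem_insert, mem_singleton] at hx
        rcases hx with rfl | rfl
        · exact ha
        · exact hb
      · rw [hec, card_pair hab.ne]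
    show c e = c {a, b}
    rw [this]
  | succ s ih =>
    intro m c X hX
    obtain ⟨V, hV, hVc, hend⟩ := exists_endHom c (s + 2) (F s m + 1) (by omega) X hX
    have hVne : V.Nonempty := card_pos.1 (by omega)
    set z := V.max' hVne with hz
    have hzV : z ∈ V := max'_mem _ _
    have hlt : ∀ a ∈ V.erase z, a < z := by
      intro a ha
      rw [mem_erase] at ha
      exact lt_of_le_of_ne (le_max' _ _ ha.2) ha.1
    obtain ⟨W, U, hW, hU, hWc, hUc, hWU, d, hd⟩ := ih m (fun A => c (insert z A)) (V.erase z) (by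
      rw [card_erase_of_mem hzV, hVc]
      simp)
    have hzU : z ∉ U := fun h => lt_irrefl _ (hlt z (hU h))
    refine ⟨W, insert z U, (hW.trans (erase_subset _ _)).trans hV,
      insert_subset (hV hzV) ((hU.trans (erase_subset _ _)).trans hV), hWc,
      by rw [card_insert_of_notMem hzU, hUc], ?_, d, ?_⟩
    · intro w hw u hu
      rw [mem_insert] at hu
      rcases hu with rfl | hu
      · exact hlt w (hW hw)
      · exact hWU w hw u hu
    · intro e he hec a ha b hb hab hmin
      have hene : e.Nonempty := ⟨a, ha⟩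
      set x := e.max' hene with hx
      have hxe : x ∈ e := max'_mem _ _
      have heV : e ⊆ V := by
        intro t ht
        have := he ht
        rw [mem_union, mem_insert] at this
        rcases this with h | rfl | h
        · exact mem_of_mem_erase (hW h)
        · exact hzV
        · exact mem_of_mem_erase (hU h)
      have hbx : b ≠ x := by
        intro h
        have h1 : e ⊆ {a, b} := by
          intro t ht
          rcases hmin t ht with rfl | h2
          · simp
          · have : t ≤ x := le_max' _ _ ht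
            have : t = b := by omega
            simp [this]
        have h2 := card_le_card h1
        rw [hec, card_pair hab.ne] at h2
        omega
      have hxA : ∀ t ∈ e.erase x, t < x := by
        intro t ht
        rw [mem_erase] at ht
        exact lt_of_le_of_ne (le_max' _ _ ht.2) ht.1
      have hxz : x ≤ z := le_max' _ _ (heV hxe)
      have hzA : ∀ t ∈ e.erase x, t < z := fun t ht => lt_of_lt_of_le (hxA t ht) hxz
      have hAc : (e.erase x).card = s + 2 := by
        rw [card_erase_of_mem hxe, hec]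
        rfl
      have h1 : c e = c (insert z (e.erase x)) := by
        have := hend (e.erase x) ((erase_subset _ _).trans heV) hAc x (heV hxe) z hzV hxA hzA
        rw [insert_erase hxe] at this
        exact this
      rw [h1]
      have hbx' : b ≤ x := le_max' _ _ hb
      refine hd (e.erase x) ?_ hAc a ?_ b ?_ hab ?_
      · intro t ht
        have h2 := he (mem_of_mem_erase ht)
        rw [mem_union, mem_insert] at h2
        rw [mem_union]
        rcases h2 with h | rfl | h
        · exact Or.inl h
        · exact absurd (hzA z ht) (lt_irrefl _)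
        · exact Or.inr h
      · rw [mem_erase]
        exact ⟨by omega, ha⟩
      · rw [mem_erase]
        exact ⟨hbx, hb⟩
      · intro t ht
        exact hmin t (mem_of_mem_erase ht)

theorem mul_le_pow' {x c : ℕ} (hx : 2 ≤ x) : x * c ≤ x ^ c := by
  induction c with
  | zero => simp
  | succ c ih =>
    rcases Nat.eq_zero_or_pos c with rfl | hc
    · simp
    · rw [pow_succ]
      have h1 : x ≤ x * c := Nat.le_mul_of_pos_right _ hc
      calc x * (c + 1) = x * c + x := by ring
        _ ≤ x * c + x * c := by omega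
        _ = x * c * 2 := by ring
        _ ≤ x ^ c * x := Nat.mul_le_mul ih hx

theorem tow_add_two_pow (c y : ℕ) (hy : 1 ≤ y) : ∀ s, 1 ≤ s →
    (tow s y + 2) ^ c ≤ tow s (c * (y + 1)) := by
  intro s
  induction s with
  | zero => intro h; omega
  | succ s ih =>
    intro _
    have h2 : ∀ a : ℕ, 1 ≤ a → (2 ^ a + 2) ^ c ≤ 2 ^ ((a + 1) * c) := by
      intro a ha
      rw [pow_mul]
      apply Nat.pow_le_pow_left
      have : 2 ≤ 2 ^ a := by
        calc 2 = 2 ^ 1 := rfl
          _ ≤ 2 ^ a := Nat.pow_le_pow_right (by norm_num) ha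
      rw [pow_succ]
      omega
    rcases Nat.eq_zero_or_pos s with rfl | hs
    · show (2 ^ y + 2) ^ c ≤ 2 ^ (c * (y + 1))
      rw [mul_comm c]
      exact h2 y hy
    · show (2 ^ tow s y + 2) ^ c ≤ 2 ^ tow s (c * (y + 1))
      have h3 : 1 ≤ tow s y := hy.trans (le_tow y s)
      refine (h2 _ h3).trans (Nat.pow_le_pow_right (by norm_num) ?_)
      refine le_trans ?_ (ih hs)
      calc (tow s y + 1) * c ≤ (tow s y + 1) ^ c := mul_le_pow' (by omega)
        _ ≤ (tow s y + 2) ^ c := Nat.pow_le_pow_left (by omega) c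

theorem F_le (s : ℕ) : ∃ D : ℕ, 1 ≤ D ∧ ∀ m, F s m ≤ tow s (D * (m + 2) ^ 3) := by
  induction s with
  | zero =>
    refine ⟨1, le_rfl, fun m => ?_⟩
    show m ≤ 1 * (m + 2) ^ 3
    nlinarith [Nat.zero_le (m ^ 3), Nat.zero_le (m ^ 2)]
  | succ s ih =>
    rcases Nat.eq_zero_or_pos s with rfl | hs
    · refine ⟨1, le_rfl, fun m => ?_⟩
      show 2 ^ ((m + 2) ^ (0 + 3)) ≤ 2 ^ (1 * (m + 2) ^ 3)
      rw [one_mul]
    · obtain ⟨D, hD, h⟩ := ih
      refine ⟨(s + 3) * (2 * D), by nlinarith, fun m => ?_⟩
      show 2 ^ ((F s m + 2) ^ (s + 3)) ≤ 2 ^ tow s ((s + 3) * (2 * D) * (m + 2) ^ 3)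
      apply Nat.pow_le_pow_right (by norm_num)
      have hy : 1 ≤ D * (m + 2) ^ 3 := by
        apply Nat.succ_le_of_lt
        positivity
      calc (F s m + 2) ^ (s + 3) ≤ (tow s (D * (m + 2) ^ 3) + 2) ^ (s + 3) := by
            apply Nat.pow_le_pow_left
            have := h m
            omega
        _ ≤ tow s ((s + 3) * (D * (m + 2) ^ 3 + 1)) := tow_add_two_pow _ _ hy s hs
        _ ≤ tow s ((s + 3) * (2 * D) * (m + 2) ^ 3) := by
            apply tow_mono
            have : D * (m + 2) ^ 3 + 1 ≤ 2 * D * (m + 2) ^ 3 := by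
              have : 2 * D * (m + 2) ^ 3 = D * (m + 2) ^ 3 + D * (m + 2) ^ 3 := by ring
              omega
            calc (s + 3) * (D * (m + 2) ^ 3 + 1) ≤ (s + 3) * (2 * D * (m + 2) ^ 3) := by gcongr
              _ = (s + 3) * (2 * D) * (m + 2) ^ 3 := by ring

end Pool.Agent.U547.EHT
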