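import Pool.Agent.U547.EHT.Lift

/-!
# Unavoidable lifts of graphs, and the types of the `(r + 1)`-sets
-/

namespace Pool.Agent.U547.EHT

open Finset

/-- `X` contains a homogeneous set of size `n` for the colouring `c` of the `r`-sets. -/
def Hom (c : Finset ℕ → Bool) (r : ℕ) (X : Finset ℕ) (n : ℕ) : Prop :=
  ∃ S ⊆ X, S.card = n ∧ ∃ b : Bool, ∀ e ⊆ S, e.card = r → c e = b

/-- `X` contains `k + r - 2` vertices `v 0 < v 1 < …` such that the colour of each `r`-set of them is
the colour, in the pattern `P`, of the two smallest indices (these are always less than `k`). -/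
def HasLift (c : Finset ℕ → Bool) (r : ℕ) (X : Finset ℕ) (k : ℕ) (P : ℕ → ℕ → Bool) : Prop :=
  ∃ v : ℕ → ℕ, StrictMonoOn v (Set.Iio (k + r - 2)) ∧ (∀ i < k + r - 2, v i ∈ X) ∧
    ∀ e ⊆ range (k + r - 2), e.card = r → ∀ i ∈ e, ∀ j ∈ e, i < j → (∀ x ∈ e, x = i ∨ j ≤ x) →
      c (e.image v) = P i j

theorem hasLift_of {c : Finset ℕ → Bool} {s k : ℕ} {X W U : Finset ℕ} {d P : ℕ → ℕ → Bool}
    (hW : W ⊆ X) (hU : U ⊆ X) (hUc : U.card = s) (hWU : ∀ w ∈ W, ∀ u ∈ U, w < u)
    (hd : Lifted c s (W ∪ U) d) (hP : PairCopy d W k P) : HasLift c (s + 2) X k P := by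
  obtain ⟨v, hv, hv2⟩ := hP
  have hks : k + (s + 2) - 2 = k + s := by omega
  unfold HasLift
  rw [hks]
  set g : ℕ → ℕ := fun t => if h : t < k then v t else
    (if h : t - k < U.card then U.orderEmbOfFin rfl ⟨t - k, h⟩ else 0) with hg
  have hg1 : ∀ t < k, g t = v t := fun t ht => by simp only [hg, ht, dite_true]
  have hg2 : ∀ t (h1 : k ≤ t) (h2 : t - k < U.card), g t = U.orderEmbOfFin rfl ⟨t - k, h2⟩ :=
    fun t h1 h2 => by simp only [hg, not_lt.2 h1, dite_false, h2, dite_true]
  have hgW : ∀ t < k, g t ∈ W := fun t ht => by rw [hg1 t ht]; exact hv t ht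
  have hgU : ∀ t, k ≤ t → t < k + s → g t ∈ U := fun t h1 h2 => by
    rw [hg2 t h1 (by omega)]
    exact orderEmbOfFin_mem _ _ _
  have hmono : StrictMonoOn g (Set.Iio (k + s)) := by
    intro i hi j hj hij
    simp only [Set.mem_Iio] at hi hj
    rcases lt_or_ge i k with hik | hik <;> rcases lt_or_ge j k with hjk | hjk
    · rw [hg1 i hik, hg1 j hjk]
      exact (hv2 i j hij hjk).1
    · exact hWU _ (hgW i hik) _ (hgU j hjk hj)
    · omega
    · rw [hg2 i hik (by omega), hg2 j hjk (by omega)]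
      apply (U.orderEmbOfFin rfl).strictMono
      rw [Fin.mk_lt_mk]
      omega
  refine ⟨g, hmono, ?_, ?_⟩
  · intro i hi
    rcases lt_or_ge i k with hik | hik
    · exact hW (hgW i hik)
    · exact hU (hgU i hik hi)
  · intro e he hec i hi j hj hij hmin
    have hjk : j < k := by
      by_contra hcon
      push Not at hcon
      have h1 : e.erase i ⊆ Ico k (k + s) := by
        intro x hx
        rw [mem_erase] at hx
        have h2 := mem_range.1 (he hx.2)
        rcases hmin x hx.2 with h3 | h3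
        · exact absurd h3 hx.1
        · rw [mem_Ico]
          omega
      have h2 := card_le_card h1
      rw [card_erase_of_mem hi, hec, Nat.card_Ico] at h2
      omega
    have hinj : Set.InjOn g (e : Set ℕ) := fun x hx y hy hxy =>
      hmono.injOn (mem_range.1 (he hx)) (mem_range.1 (he hy)) hxy
    have hr : ∀ x ∈ e, x < k + s := fun x hx => mem_range.1 (he hx)
    rw [hd (e.image g) ?_ ?_ (g i) (mem_image_of_mem _ hi) (g j) (mem_image_of_mem _ hj)
      (hmono (hr i hi) (hr j hj) hij) ?_, hg1 i (by omega), hg1 j hjk]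
    · exact (hv2 i j hij hjk).2
    · intro y hy
      rw [mem_image] at hy
      obtain ⟨x, hx, rfl⟩ := hy
      rw [mem_union]
      rcases lt_or_ge x k with hxk | hxk
      · exact Or.inl (hgW x hxk)
      · exact Or.inr (hgU x hxk (hr x hx))
    · rw [card_image_of_injOn hinj, hec]
    · intro y hy
      rw [mem_image] at hy
      obtain ⟨x, hx, rfl⟩ := hy
      rcases hmin x hx with rfl | h
      · exact Or.inl rfl
      · exact Or.inr (hmono.monotoneOn (hr j hj) (hr x hx) h)

theorem hom_of_pair {c : Finset ℕ → Bool} {s n : ℕ} {X W U S : Finset ℕ} {d : ℕ → ℕ → Bool}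
    (hW : W ⊆ X) (hd : Lifted c s (W ∪ U) d) (hS : S ⊆ W) (hn : n ≤ S.card) {b : Bool}
    (hb : ∀ x ∈ S, ∀ y ∈ S, x < y → d x y = b) : Hom c (s + 2) X n := by
  obtain ⟨T, hT, hTc⟩ := exists_subset_card_eq hn
  refine ⟨T, (hT.trans hS).trans hW, hTc, b, ?_⟩
  intro e he hec
  have hne : e.Nonempty := card_pos.1 (by omega)
  set x := e.min' hne with hx
  have hxe : x ∈ e := min'_mem _ _
  have hne2 : (e.erase x).Nonempty := card_pos.1 (by rw [card_erase_of_mem hxe]; omega)
  set y := (e.erase x).min' hne2 with hy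
  have hye : y ∈ e.erase x := min'_mem _ _
  have hye' : y ∈ e := mem_of_mem_erase hye
  have hxy : x < y := lt_of_le_of_ne (min'_le _ _ hye') (mem_erase.1 hye).1.symm
  rw [hd e (((he.trans hT).trans hS).trans subset_union_left) hec x hxe y hye' hxy ?_]
  · exact hb x (hT (he hxe)) y (hT (he hye')) hxy
  · intro z hz
    by_cases h : z = x
    · exact Or.inl h
    · exact Or.inr (min'_le _ _ (mem_erase.2 ⟨h, hz⟩))

theorem size_bound (D a : ℕ) : D * (2 ^ a + 2) ^ 3 ≤ 2 ^ (D + 3 * (a + 2)) := by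
  have h1 : 2 ^ a + 2 ≤ 2 ^ (a + 2) := by
    have : 1 ≤ 2 ^ a := Nat.one_le_two_pow
    rw [pow_add]
    omega
  calc D * (2 ^ a + 2) ^ 3 ≤ 2 ^ D * (2 ^ (a + 2)) ^ 3 := by
        gcongr
        exact Nat.lt_two_pow_self.le
    _ = 2 ^ (D + 3 * (a + 2)) := by
        rw [← pow_mul, ← pow_add]
        congr 1
        ring

/-- **Lifts of graphs.** -/
theorem lifts (s : ℕ) : ∃ C : ℕ, ∀ (k n : ℕ), 1 ≤ k → 2 ≤ n → ∀ (P : ℕ → ℕ → Bool)
    (c : Finset ℕ → Bool) (X : Finset ℕ), tow (s + 1) (C * k * Nat.clog 2 n ^ 2) ≤ X.card →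
      Hom c (s + 2) X n ∨ HasLift c (s + 2) X k P := by
  obtain ⟨D, hD, hF⟩ := F_le s
  refine ⟨D + 30, fun k n hk hn P c X hX => ?_⟩
  set L := Nat.clog 2 n with hL
  have hL1 : 1 ≤ L := Nat.clog_pos (by norm_num) hn
  have hkL : 1 ≤ k * L ^ 2 := Nat.succ_le_of_lt (by positivity)
  have hnL : n ≤ 2 ^ L := Nat.le_pow_clog (by norm_num) n
  have h1 : F s (2 ^ (8 * (k * L ^ 2))) ≤ X.card := by
    refine (hF _).trans (le_trans (tow_mono ?_ s) (le_trans (tow_succ' s _).ge hX))
    refine (size_bound D _).trans (Nat.pow_le_pow_right (by norm_num) ?_)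
    have : (D + 30) * k * L ^ 2 = D * (k * L ^ 2) + 30 * (k * L ^ 2) := by ring
    rw [this]
    nlinarith
  obtain ⟨W, U, hW, hU, hWc, hUc, hWU, d, hd⟩ := red s _ c X h1
  rcases pair_theorem d k L hk hL1 P W hWc.ge with h | ⟨S, hS, hSc, b, hb⟩
  · exact Or.inr (hasLift_of hW hU hUc hWU hd h)
  · exact Or.inl (hom_of_pair hW hd hS (by omega) hb)

/-- Greedy independent sets. -/
theorem degenerate (bad : ℕ → ℕ → Prop) [DecidableRel bad] (n : ℕ) : ∀ (N : ℕ) (W : Finset ℕ),
    W.card = N → (∀ W' ⊆ W, W'.Nonempty → ∃ a ∈ W',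
      ((W'.erase a).filter fun b => bad a b ∨ bad b a).card < n) →
    ∃ S ⊆ W, W.card ≤ n * S.card ∧ ∀ a ∈ S, ∀ b ∈ S, a ≠ b → ¬ bad a b := by
  intro N
  induction N using Nat.strong_induction_on with
  | _ N ih =>
    intro W hWc h
    rcases W.eq_empty_or_nonempty with rfl | hne
    · exact ⟨∅, subset_rfl, by simp, by simp⟩
    · obtain ⟨a, ha, hac⟩ := h W subset_rfl hne
      set B := (W.erase a).filter fun b => bad a b ∨ bad b a with hB
      set W' := (W.erase a) \ B with hW'
      have hW'W : W' ⊆ W := sdiff_subset.trans (erase_subset _ _)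
      have hcard : W.card ≤ W'.card + n := by
        have h1 : (W.erase a).card - B.card ≤ W'.card := le_card_sdiff B _
        rw [card_erase_of_mem ha] at h1
        omega
      have hlt : W'.card < N := by
        rw [← hWc]
        refine card_lt_card ⟨hW'W, fun hsub => ?_⟩
        have := hsub ha
        simp [hW'] at this
      obtain ⟨S, hS, hSc, hind⟩ := ih W'.card hlt W' rfl fun W'' hW'' hne'' =>
        h W'' (hW''.trans hW'W) hne''
      have haS : a ∉ S := fun h => by
        have := hS h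
        simp [hW'] at this
      have hab : ∀ b ∈ S, ¬ bad a b ∧ ¬ bad b a := by
        intro b hb
        have h1 := hS hb
        rw [hW', mem_sdiff, hB, mem_filter] at h1
        have h2 := h1.2
        push Not at h2
        exact h2 h1.1
      refine ⟨insert a S, insert_subset ha (hS.trans hW'W), ?_, ?_⟩
      · rw [card_insert_of_notMem haS]
        calc W.card ≤ W'.card + n := hcard
          _ ≤ n * S.card + n := by omega
          _ = n * (S.card + 1) := by ring
      · intro x hx y hy hxy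
        rw [mem_insert] at hx hy
        rcases hx with rfl | hx <;> rcases hy with rfl | hy
        · exact absurd rfl hxy
        · exact (hab y hy).1
        · exact (hab x hx).2
        · exact hind x hx y hy hxy

/-- indicator of the colour `β` -/
def ind (β x : Bool) : ℕ := if x = β then 1 else 0

/-- Three vertices of a given type, or a homogeneous set. -/
theorem three (d : ℕ → ℕ → Bool) (n : ℕ) (hn : 1 ≤ n) (β : Bool) (t : ℕ) (ht : t ≤ 2)
    (W : Finset ℕ) (hW : n * n ≤ W.card) :
    (∃ x ∈ W, ∃ y ∈ W, ∃ z ∈ W, x < y ∧ y < z ∧ d x y ≠ β ∧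
      ind β (d x z) + ind β (d y z) = t) ∨
    ∃ S ⊆ W, n ≤ S.card ∧ ∃ b : Bool, ∀ x ∈ S, ∀ y ∈ S, x < y → d x y = b := by
  by_cases hex : ∃ x ∈ W, ∃ y ∈ W, ∃ z ∈ W, x < y ∧ y < z ∧ d x y ≠ β ∧
      ind β (d x z) + ind β (d y z) = t
  · exact Or.inl hex
  right
  push Not at hex
  have hne : ∀ b : Bool, b ≠ β → b = !β := by
    intro b hb
    cases b <;> cases β <;> simp_all
  rcases (show t = 2 ∨ t ≤ 1 by omega) with rfl | ht1
  · -- the in-neighbourhoods in the colour `β` are cliques
    by_cases hbig : ∃ z ∈ W, n ≤ (W.filter fun b => b < z ∧ d b z = β).card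
    · obtain ⟨z, hz, hzc⟩ := hbig
      refine ⟨_, filter_subset _ _, hzc, β, ?_⟩
      intro x hx y hy hxy
      rw [mem_filter] at hx hy
      by_contra hcon
      refine hex x hx.1 y hy.1 z hz hxy hy.2.1 hcon ?_
      simp [ind, hx.2.2, hy.2.2]
    · push Not at hbig
      obtain ⟨S, hS, hSc, hind⟩ := degenerate (fun a b => a < b ∧ d a b = β) n W.card W rfl (by
        intro W' hW' hne'
        refine ⟨W'.max' hne', max'_mem _ _, lt_of_le_of_lt (card_le_card ?_)
          (hbig (W'.max' hne') (hW' (max'_mem _ _)))⟩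
        intro b hb
        rw [mem_filter, mem_erase] at hb
        have h1 : b ≤ W'.max' hne' := le_max' _ _ hb.1.2
        rcases hb.2 with h2 | h2
        · omega
        · exact mem_filter.2 ⟨hW' hb.1.2, h2⟩)
      refine ⟨S, hS, ?_, !β, ?_⟩
      · exact Nat.le_of_mul_le_mul_left (hW.trans hSc) hn
      · intro x hx y hy hxy
        apply hne
        intro h
        exact hind x hx y hy hxy.ne ⟨hxy, h⟩
  · by_cases hbig : ∃ x ∈ W, n ≤ (W.filter fun b => x < b ∧ d x b ≠ β).card
    · obtain ⟨x, hx, hxc⟩ := hbig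
      -- homogeneous
      rcases (show t = 0 ∨ t = 1 by omega) with rfl | rfl
      · refine ⟨_, filter_subset _ _, hxc, β, ?_⟩
        intro y hy z hz hyz
        rw [mem_filter] at hy hz
        by_contra hcon
        refine hex x hx y hy.1 z hz.1 hy.2.1 hyz hy.2.2 ?_
        simp [ind, hz.2.2, hcon]
      · refine ⟨_, filter_subset _ _, hxc, !β, ?_⟩
        intro y hy z hz hyz
        rw [mem_filter] at hy hz
        apply hne
        intro h
        refine hex x hx y hy.1 z hz.1 hy.2.1 hyz hy.2.2 ?_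
        simp [ind, hz.2.2, h]
    · push Not at hbig
      obtain ⟨S, hS, hSc, hind⟩ := degenerate (fun a b => a < b ∧ d a b ≠ β) n W.card W rfl (by
        intro W' hW' hne'
        refine ⟨W'.min' hne', min'_mem _ _, lt_of_le_of_lt (card_le_card ?_)
          (hbig (W'.min' hne') (hW' (min'_mem _ _)))⟩
        intro b hb
        rw [mem_filter, mem_erase] at hb
        have h1 : W'.min' hne' ≤ b := min'_le _ _ hb.1.2
        rcases hb.2 with h2 | h2
        · exact mem_filter.2 ⟨hW' hb.1.2, h2⟩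
        · omega)
      refine ⟨S, hS, ?_, β, ?_⟩
      · exact Nat.le_of_mul_le_mul_left (hW.trans hSc) hn
      · intro x hx y hy hxy
        by_contra h
        exact hind x hx y hy hxy.ne ⟨hxy, h⟩

/-- The number of the `(s + 2)`-sets of the colour `β` in `{x, y, z} ∪ U`. -/
theorem count {c : Finset ℕ → Bool} {s : ℕ} {W U : Finset ℕ} {d : ℕ → ℕ → Bool}
    (hUc : U.card = s) (hWU : ∀ w ∈ W, ∀ u ∈ U, w < u) (hd : Lifted c s (W ∪ U) d) {x y z : ℕ}
    (hx : x ∈ W) (hy : y ∈ W) (hz : z ∈ W) (hxy : x < y) (hyz : y < z) {β : Bool}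
    (hβ : d x y ≠ β) : ∃ V ⊆ W ∪ U, V.card = s + 3 ∧
      ((V.powersetCard (s + 2)).filter fun e => c e = β).card =
        ind β (d x z) + ind β (d y z) := by
  set V := insert x (insert y (insert z U)) with hV
  have hzU : z ∉ U := fun h => lt_irrefl _ (hWU z hz z h)
  have hyU : y ∉ insert z U := by
    rw [mem_insert]
    rintro (h | h)
    · omega
    · exact lt_irrefl _ (hWU y hy y h)
  have hxU : x ∉ insert y (insert z U) := by
    rw [mem_insert, mem_insert]
    rintro (h | h | h)
    · omega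
    · omega
    · exact lt_irrefl _ (hWU x hx x h)
  have hVc : V.card = s + 3 := by
    rw [hV, card_insert_of_notMem hxU, card_insert_of_notMem hyU, card_insert_of_notMem hzU, hUc]
  have hVsub : V ⊆ W ∪ U := by
    intro t ht
    simp only [hV, mem_insert] at ht
    rw [mem_union]
    rcases ht with rfl | rfl | rfl | h
    · exact Or.inl hx
    · exact Or.inl hy
    · exact Or.inl hz
    · exact Or.inr h
  have hxV : x ∈ V := by simp [hV]
  have hyV : y ∈ V := by simp [hV]
  have hzV : z ∈ V := by simp [hV]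
  have hle : ∀ t ∈ V, t = x ∨ t = y ∨ z ≤ t := by
    intro t ht
    simp only [hV, mem_insert] at ht
    rcases ht with h | h | h | h
    · exact Or.inl h
    · exact Or.inr (Or.inl h)
    · exact Or.inr (Or.inr (by omega))
    · exact Or.inr (Or.inr (hWU z hz t h).le)
  refine ⟨V, hVsub, hVc, ?_⟩
  have hce : ∀ t ∈ V, (V.erase t).card = s + 2 := fun t ht => by
    rw [card_erase_of_mem ht, hVc]
    rfl
  have h1 : c (V.erase x) = d y z := by
    refine hd _ ((erase_subset _ _).trans hVsub) (hce x hxV) y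
      (mem_erase.2 ⟨by omega, hyV⟩) z (mem_erase.2 ⟨by omega, hzV⟩) hyz ?_
    intro t ht
    rw [mem_erase] at ht
    rcases hle t ht.2 with h | h | h
    · exact absurd h ht.1
    · exact Or.inl h
    · exact Or.inr h
  have h2 : c (V.erase y) = d x z := by
    refine hd _ ((erase_subset _ _).trans hVsub) (hce y hyV) x
      (mem_erase.2 ⟨by omega, hxV⟩) z (mem_erase.2 ⟨by omega, hzV⟩) (by omega) ?_
    intro t ht
    rw [mem_erase] at ht
    rcases hle t ht.2 with h | h | h
    · exact Or.inl h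
    · exact absurd h ht.1
    · exact Or.inr h
  have h3 : ∀ t ∈ V, t ≠ x → t ≠ y → c (V.erase t) = d x y := by
    intro t ht htx hty
    refine hd _ ((erase_subset _ _).trans hVsub) (hce t ht) x
      (mem_erase.2 ⟨htx.symm, hxV⟩) y (mem_erase.2 ⟨hty.symm, hyV⟩) hxy ?_
    intro u hu
    rw [mem_erase] at hu
    rcases hle u hu.2 with h | h | h
    · exact Or.inl h
    · exact Or.inr (by omega)
    · exact Or.inr (by omega)
  have h4 : (V.powersetCard (s + 2)).filter (fun e => c e = β) =
      ((({x} : Finset ℕ).filter fun _ => d y z = β) ∪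
        (({y} : Finset ℕ).filter fun _ => d x z = β)).image (fun t => V.erase t) := by
    ext e
    simp only [mem_filter, mem_powersetCard, mem_image, mem_union, mem_singleton]
    constructor
    · rintro ⟨⟨he, hec⟩, hce'⟩
      obtain ⟨a, ha, hae⟩ := (exists_eq_insert_iff (s := e) (t := V)).2 ⟨he, by omega⟩
      have haV : a ∈ V := by rw [← hae]; exact mem_insert_self _ _
      have hea : V.erase a = e := by rw [← hae, erase_insert ha]
      refine ⟨a, ?_, hea⟩
      rw [← hea] at hce'
      by_cases hax : a = x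
      · left
        subst hax
        exact ⟨rfl, by rw [← h1]; exact hce'⟩
      · by_cases hay : a = y
        · right
          subst hay
          exact ⟨rfl, by rw [← h2]; exact hce'⟩
        · rw [h3 a haV hax hay] at hce'
          exact absurd hce' hβ
    · rintro ⟨a, ha, rfl⟩
      rcases ha with ⟨rfl, h⟩ | ⟨rfl, h⟩
      · exact ⟨⟨erase_subset _ _, hce _ hxV⟩, by rw [h1]; exact h⟩
      · exact ⟨⟨erase_subset _ _, hce _ hyV⟩, by rw [h2]; exact h⟩
  rw [h4, card_image_of_injOn, card_union_of_disjoint, filter_singleton, filter_singleton]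
  · unfold ind
    split_ifs <;> simp
  · rw [disjoint_left]
    intro t ht ht'
    simp only [mem_filter, mem_singleton] at ht ht'
    omega
  · intro a ha b hb hab
    have hmem : ∀ a ∈ ((({x} : Finset ℕ).filter fun _ => d y z = β) ∪
        (({y} : Finset ℕ).filter fun _ => d x z = β)), a ∈ V := by
      intro a ha
      simp only [mem_union, mem_filter, mem_singleton] at ha
      rcases ha with h | h
      · rw [h.1]; exact hxV
      · rw [h.1]; exact hyV
    have haV := hmem a ha
    by_contra hne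
    have h5 : a ∈ V.erase b := mem_erase.2 ⟨hne, haV⟩
    have hab' : V.erase a = V.erase b := hab
    rw [← hab'] at h5
    exact (mem_erase.1 h5).1 rfl

/-- **The types of the `(r + 1)`-sets.** -/
theorem types (s : ℕ) : ∃ C : ℕ, ∀ n : ℕ, 2 ≤ n → ∀ (β : Bool) (t : ℕ), t ≤ 2 →
    ∀ (c : Finset ℕ → Bool) (X : Finset ℕ), tow (s + 1) (C * Nat.clog 2 n) ≤ X.card →
      Hom c (s + 2) X n ∨ ∃ V ⊆ X, V.card = s + 3 ∧
        ((V.powersetCard (s + 2)).filter fun e => c e = β).card = t := by
  obtain ⟨D, hD, hF⟩ := F_le s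
  refine ⟨D + 12, fun n hn β t ht c X hX => ?_⟩
  set L := Nat.clog 2 n with hL
  have hL1 : 1 ≤ L := Nat.clog_pos (by norm_num) hn
  have hnL : n ≤ 2 ^ L := Nat.le_pow_clog (by norm_num) n
  have h1 : F s (2 ^ (2 * L)) ≤ X.card := by
    refine (hF _).trans (le_trans (tow_mono ?_ s) (le_trans (tow_succ' s _).ge hX))
    refine (size_bound D _).trans (Nat.pow_le_pow_right (by norm_num) ?_)
    nlinarith
  obtain ⟨W, U, hW, hU, hWc, hUc, hWU, d, hd⟩ := red s _ c X h1
  have h2 : n * n ≤ W.card := by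
    rw [hWc]
    calc n * n ≤ 2 ^ L * 2 ^ L := Nat.mul_le_mul hnL hnL
      _ = 2 ^ (2 * L) := by rw [← pow_add]; ring_nf
  rcases three d n (by omega) β t ht W h2 with ⟨x, hx, y, hy, z, hz, hxy, hyz, hβ, hcount⟩ |
    ⟨S, hS, hSc, b, hb⟩
  · right
    obtain ⟨V, hV, hVc, hVcount⟩ := count hUc hWU hd hx hy hz hxy hyz hβ
    exact ⟨V, hV.trans (union_subset hW hU), hVc, by rw [hVcount, hcount]⟩
  · exact Or.inl (hom_of_pair hW hd hS hSc hb)

end Pool.Agent.U547.EHT
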