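import Pool.Agent.U547.EHT.Lift

/-!
# Reduction from `r`-sets to pairs, from both sides

The colour of an `r`-set, `r = a + b + 2`, becomes a function of its elements number `a + 1` and
`a + 2`.
-/

namespace Pool.Agent.U547.EHT

open Finset

/-- The colour of a set with `p + 1` elements of `V` does not depend on its smallest element. -/
def EndHomL (c : Finset ℕ → Bool) (p : ℕ) (V : Finset ℕ) : Prop :=
  ∀ A ⊆ V, A.card = p → ∀ x ∈ V, ∀ y ∈ V, (∀ a ∈ A, x < a) → (∀ a ∈ A, y < a) →
    c (insert x A) = c (insert y A)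

theorem exists_endHomL (c : Finset ℕ → Bool) (p m : ℕ) (hp : 1 ≤ p) (X : Finset ℕ)
    (hX : 2 ^ ((m + 1) ^ (p + 1)) ≤ X.card) : ∃ V ⊆ X, V.card = m ∧ EndHomL c p V := by
  -- reverse the order
  set M := X.sup id with hM
  have hle : ∀ x ∈ X, x ≤ M := fun x hx => le_sup (f := id) hx
  set ρ : ℕ → ℕ := fun x => M - x with hρ
  have hρρ : ∀ x ∈ X, ρ (ρ x) = x := fun x hx => by
    have := hle x hx
    simp only [hρ]
    omega
  have hinj : Set.InjOn ρ (X : Set ℕ) := fun x hx y hy hxy => by
    have h1 := hle x hx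
    have h2 := hle y hy
    simp only [hρ] at hxy
    omega
  have hcard : (X.image ρ).card = X.card := card_image_of_injOn hinj
  obtain ⟨V', hV', hV'c, hend⟩ := exists_endHom (fun e => c (e.image ρ)) p m hp (X.image ρ)
    (by rw [hcard]; exact hX)
  have hV'X : ∀ v ∈ V', ∃ x ∈ X, ρ x = v := fun v hv => by
    have := hV' hv
    rw [mem_image] at this
    exact this
  have hV'M : ∀ v ∈ V', v ≤ M := fun v hv => by
    obtain ⟨x, _, rfl⟩ := hV'X v hv
    simp only [hρ]
    omega
  have hinj' : Set.InjOn ρ (V' : Set ℕ) := fun x hx y hy hxy => by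
    have h1 := hV'M x hx
    have h2 := hV'M y hy
    simp only [hρ] at hxy
    omega
  have hsub : V'.image ρ ⊆ X := by
    intro y hy
    rw [mem_image] at hy
    obtain ⟨v, hv, rfl⟩ := hy
    obtain ⟨x, hx, rfl⟩ := hV'X v hv
    rw [hρρ x hx]
    exact hx
  refine ⟨V'.image ρ, hsub, by rw [card_image_of_injOn hinj', hV'c], ?_⟩
  intro A hA hAc x hx y hy hxA hyA
  have hmem : ∀ x ∈ V'.image ρ, ρ x ∈ V' := by
    intro x hx
    rw [mem_image] at hx
    obtain ⟨v, hv, rfl⟩ := hx
    have := hV'M v hv
    have h2 : ρ (ρ v) = v := by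
      simp only [hρ]
      omega
    rw [h2]
    exact hv
  have hAX : A ⊆ X := hA.trans hsub
  have himg : ∀ B : Finset ℕ, B ⊆ X → (B.image ρ).image ρ = B := by
    intro B hB
    rw [image_image]
    conv_rhs => rw [← image_id (s := B)]
    apply image_congr
    intro t ht
    exact hρρ t (hB ht)
  have h := hend (A.image ρ) (by
      intro t ht
      rw [mem_image] at ht
      obtain ⟨s, hs, rfl⟩ := ht
      exact hmem s (hA hs))
    (by rw [card_image_of_injOn (fun s hs t ht hst => hinj (hAX hs) (hAX ht) hst), hAc])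
    (ρ x) (hmem x hx) (ρ y) (hmem y hy)
    (by
      intro t ht
      rw [mem_image] at ht
      obtain ⟨s, hs, rfl⟩ := ht
      have h1 := hxA s hs
      have h2 := hle s (hAX hs)
      simp only [hρ]
      omega)
    (by
      intro t ht
      rw [mem_image] at ht
      obtain ⟨s, hs, rfl⟩ := ht
      have h1 := hyA s hs
      have h2 := hle s (hAX hs)
      simp only [hρ]
      omega)
  simp only [image_insert] at h
  rw [himg A hAX, hρρ x (hsub hx), hρρ y (hsub hy)] at h
  exact h

/-- The colour of a set of `a + b + 2` vertices is given by a colouring of the pairs, applied to its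
elements number `a + 1` and `a + 2`. -/
def Lifted2 (c : Finset ℕ → Bool) (a b : ℕ) (Y : Finset ℕ) (d : ℕ → ℕ → Bool) : Prop :=
  ∀ e ⊆ Y, e.card = a + b + 2 → ∀ i ∈ e, ∀ j ∈ e, (e.filter (· < i)).card = a →
    (e.filter (· < j)).card = a + 1 → c e = d i j

theorem red2 : ∀ (a b m : ℕ) (c : Finset ℕ → Bool) (X : Finset ℕ), F (a + b) m ≤ X.card →
    ∃ A W B : Finset ℕ, A ⊆ X ∧ W ⊆ X ∧ B ⊆ X ∧ A.card = a ∧ W.card = m ∧ B.card = b ∧
      (∀ x ∈ A, ∀ w ∈ W, x < w) ∧ (∀ w ∈ W, ∀ u ∈ B, w < u) ∧ (∀ x ∈ A, ∀ u ∈ B, x < u) ∧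
      ∃ d, Lifted2 c a b (A ∪ W ∪ B) d := by
  intro a
  induction a with
  | zero =>
    intro b m c X hX
    rw [zero_add] at hX
    obtain ⟨W, U, hW, hU, hWc, hUc, hWU, d, hd⟩ := red b m c X hX
    refine ⟨∅, W, U, empty_subset _, hW, hU, rfl, hWc, hUc, by simp, hWU, by simp, d, ?_⟩
    intro e he hec i hi j hj hfi hfj
    rw [empty_union] at he
    rw [zero_add] at hec hfj
    have hmin : ∀ x ∈ e, i ≤ x := by
      intro x hx
      by_contra hcon
      push Not at hcon
      have : x ∈ e.filter (· < i) := mem_filter.2 ⟨hx, hcon⟩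
      rw [card_eq_zero] at hfi
      rw [hfi] at this
      exact absurd this (notMem_empty _)
    have hij : i < j := by
      refine lt_of_le_of_ne (hmin j hj) ?_
      rintro rfl
      omega
    refine hd e he hec i hi j hj hij ?_
    intro x hx
    by_contra hcon
    push Not at hcon
    rw [card_eq_one] at hfj
    obtain ⟨w, hw⟩ := hfj
    have h1 : x ∈ e.filter (· < j) := mem_filter.2 ⟨hx, hcon.2⟩
    have h2 : i ∈ e.filter (· < j) := mem_filter.2 ⟨hi, hij⟩
    rw [hw, mem_singleton] at h1 h2
    exact hcon.1 (h1.trans h2.symm)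
  | succ a ih =>
    intro b m c X hX
    have h1 : a + 1 + b = (a + b) + 1 := by omega
    rw [h1] at hX
    obtain ⟨V, hV, hVc, hend⟩ := exists_endHomL c (a + b + 2) (F (a + b) m + 1) (by omega) X hX
    have hVne : V.Nonempty := card_pos.1 (by omega)
    set z := V.min' hVne with hz
    have hzV : z ∈ V := min'_mem _ _
    have hlt : ∀ t ∈ V.erase z, z < t := by
      intro t ht
      rw [mem_erase] at ht
      exact lt_of_le_of_ne (min'_le _ _ ht.2) ht.1.symm
    obtain ⟨A, W, B, hA, hW, hB, hAc, hWc, hBc, hAW, hWB, hAB, d, hd⟩ :=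
      ih b m (fun A => c (insert z A)) (V.erase z) (by
        rw [card_erase_of_mem hzV, hVc]
        simp)
    have hzA : z ∉ A := fun h => lt_irrefl _ (hlt z (hA h))
    have hEV : ∀ {T : Finset ℕ}, T ⊆ V.erase z → T ⊆ X := fun h =>
      (h.trans (erase_subset _ _)).trans hV
    refine ⟨insert z A, W, B, insert_subset (hV hzV) (hEV hA), hEV hW, hEV hB,
      by rw [card_insert_of_notMem hzA, hAc], hWc, hBc, ?_, hWB, ?_, d, ?_⟩
    · intro x hx w hw
      rw [mem_insert] at hx
      rcases hx with rfl | hx
      · exact hlt w (hW hw)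
      · exact hAW x hx w hw
    · intro x hx w hw
      rw [mem_insert] at hx
      rcases hx with rfl | hx
      · exact hlt w (hB hw)
      · exact hAB x hx w hw
    · intro e he hec i hi j hj hfi hfj
      have hene : e.Nonempty := ⟨i, hi⟩
      set x := e.min' hene with hx
      have hxe : x ∈ e := min'_mem _ _
      have heV : e ⊆ V := by
        intro t ht
        have := he ht
        rw [mem_union, mem_union, mem_insert] at this
        rcases this with ((rfl | h) | h) | h
        · exact hzV
        · exact mem_of_mem_erase (hA h)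
        · exact mem_of_mem_erase (hW h)
        · exact mem_of_mem_erase (hB h)
      have hxA : ∀ t ∈ e.erase x, x < t := by
        intro t ht
        rw [mem_erase] at ht
        exact lt_of_le_of_ne (min'_le _ _ ht.2) ht.1.symm
      have hzx : z ≤ x := min'_le _ _ (heV hxe)
      have hzA' : ∀ t ∈ e.erase x, z < t := fun t ht => lt_of_le_of_lt hzx (hxA t ht)
      have hAc' : (e.erase x).card = a + b + 2 := by
        rw [card_erase_of_mem hxe, hec]
        omega
      have h2 : c e = c (insert z (e.erase x)) := by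
        have := hend (e.erase x) ((erase_subset _ _).trans heV) hAc' x (heV hxe) z hzV hxA hzA'
        rw [insert_erase hxe] at this
        exact this
      rw [h2]
      have hfilt : ∀ t ∈ e, 1 ≤ (e.filter (· < t)).card →
          t ≠ x ∧ ((e.erase x).filter (· < t)).card + 1 = (e.filter (· < t)).card := by
        intro t ht htc
        obtain ⟨y, hy⟩ := card_pos.1 (show 0 < (e.filter (· < t)).card from htc)
        rw [mem_filter] at hy
        have hxt : x < t := lt_of_le_of_lt (min'_le _ _ hy.1) hy.2
        refine ⟨hxt.ne', ?_⟩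
        have : (e.erase x).filter (· < t) = (e.filter (· < t)).erase x := by
          ext w
          simp only [mem_filter, mem_erase]
          tauto
        rw [this, card_erase_of_mem (mem_filter.2 ⟨hxe, hxt⟩)]
        omega
      obtain ⟨hix, hfi'⟩ := hfilt i hi (by omega)
      obtain ⟨hjx, hfj'⟩ := hfilt j hj (by omega)
      refine hd (e.erase x) ?_ hAc' i (mem_erase.2 ⟨hix, hi⟩) j (mem_erase.2 ⟨hjx, hj⟩)
        (by omega) (by omega)
      intro t ht
      have h3 := he (mem_of_mem_erase ht)
      have h4 := hzA' t ht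
      rw [mem_union, mem_union, mem_insert] at h3
      rw [mem_union, mem_union]
      rcases h3 with ((rfl | h) | h) | h
      · exact absurd h4 (lt_irrefl _)
      · exact Or.inl (Or.inl h)
      · exact Or.inl (Or.inr h)
      · exact Or.inr h

end Pool.Agent.U547.EHT
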