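import Pool.Agent.U547.EHT.Dense
import Pool.Agent.U547.EHT.Two
import Pool.Agent.U547.EHT.Main

/-!
# Unavoidable lifts at every position, and the numbers of edges on `r + 1` points
-/

namespace Pool.Agent.U547.EHT

open Finset

/-- `X` contains `a + k + b` vertices `v 0 < v 1 < …` such that the colour of each `(a + b + 2)`-set of
them is the colour, in the pattern `P`, of its elements number `a + 1` and `a + 2`. (These two
elements are always of the form `v (a + i)`, `v (a + j)` with `i < j < k`.) -/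
def LiftAt (c : Finset ℕ → Bool) (a b : ℕ) (X : Finset ℕ) (k : ℕ) (P : ℕ → ℕ → Bool) : Prop :=
  ∃ v : ℕ → ℕ, StrictMonoOn v (Set.Iio (a + k + b)) ∧ (∀ i < a + k + b, v i ∈ X) ∧
    ∀ e ⊆ range (a + k + b), e.card = a + b + 2 → ∀ i j, a + i ∈ e → a + j ∈ e →
      (e.filter (· < a + i)).card = a → (e.filter (· < a + j)).card = a + 1 →
      c (e.image v) = P i j

/-- The increasing enumeration of a finite set. -/
noncomputable def enum (A : Finset ℕ) (t : ℕ) : ℕ :=
  if h : t < A.card then A.orderEmbOfFin rfl ⟨t, h⟩ else 0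

theorem enum_mem {A : Finset ℕ} {t : ℕ} (h : t < A.card) : enum A t ∈ A := by
  unfold enum
  rw [dif_pos h]
  exact orderEmbOfFin_mem _ _ _

theorem enum_lt {A : Finset ℕ} {t u : ℕ} (h : t < u) (hu : u < A.card) : enum A t < enum A u := by
  unfold enum
  rw [dif_pos (h.trans hu), dif_pos hu]
  exact (A.orderEmbOfFin rfl).strictMono h

theorem liftAt_of {c : Finset ℕ → Bool} {a b k : ℕ} {X A W B : Finset ℕ} {d P : ℕ → ℕ → Bool}
    (hA : A ⊆ X) (hW : W ⊆ X) (hB : B ⊆ X) (hAc : A.card = a) (hBc : B.card = b)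
    (hAW : ∀ x ∈ A, ∀ w ∈ W, x < w) (hWB : ∀ w ∈ W, ∀ u ∈ B, w < u)
    (hAB : ∀ x ∈ A, ∀ u ∈ B, x < u)
    (hd : Lifted2 c a b (A ∪ W ∪ B) d) (hP : PairCopy d W k P) : LiftAt c a b X k P := by
  obtain ⟨v, hv, hv2⟩ := hP
  set g : ℕ → ℕ := fun t => if t < a then enum A t else
    (if t < a + k then v (t - a) else enum B (t - (a + k))) with hg
  have hg1 : ∀ t < a, g t = enum A t := fun t ht => by simp only [hg, ht, if_true]
  have hg2 : ∀ t, a ≤ t → t < a + k → g t = v (t - a) := fun t h1 h2 => by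
    simp only [hg, not_lt.2 h1, if_false, h2, if_true]
  have hg3 : ∀ t, a + k ≤ t → g t = enum B (t - (a + k)) := fun t h1 => by
    have h2 : ¬ t < a := by omega
    simp only [hg, h2, if_false, not_lt.2 h1]
  have hgA : ∀ t < a, g t ∈ A := fun t ht => by rw [hg1 t ht]; exact enum_mem (by omega)
  have hgW : ∀ t, a ≤ t → t < a + k → g t ∈ W := fun t h1 h2 => by
    rw [hg2 t h1 h2]; exact hv _ (by omega)
  have hgB : ∀ t, a + k ≤ t → t < a + k + b → g t ∈ B := fun t h1 h2 => by
    rw [hg3 t h1]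
    exact enum_mem (by omega)
  have hmono : StrictMonoOn g (Set.Iio (a + k + b)) := by
    intro i hi j hj hij
    simp only [Set.mem_Iio] at hi hj
    rcases lt_or_ge i a with h1 | h1
    · rcases lt_or_ge j a with h2 | h2
      · rw [hg1 i h1, hg1 j h2]
        exact enum_lt hij (by omega)
      · rcases lt_or_ge j (a + k) with h3 | h3
        · exact hAW _ (hgA i h1) _ (hgW j h2 h3)
        · exact hAB _ (hgA i h1) _ (hgB j h3 hj)
    · rcases lt_or_ge i (a + k) with h3 | h3
      · rcases lt_or_ge j (a + k) with h4 | h4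
        · rw [hg2 i h1 h3, hg2 j (by omega) h4]
          exact (hv2 (i - a) (j - a) (by omega) (by omega)).1
        · exact hWB _ (hgW i h1 h3) _ (hgB j h4 hj)
      · rw [hg3 i h3, hg3 j (by omega)]
        exact enum_lt (by omega) (by omega)
  refine ⟨g, hmono, ?_, ?_⟩
  · intro i hi
    rcases lt_or_ge i a with h1 | h1
    · exact hA (hgA i h1)
    · rcases lt_or_ge i (a + k) with h2 | h2
      · exact hW (hgW i h1 h2)
      · exact hB (hgB i h2 hi)
  · intro e he hec i j hi hj hfi hfj
    have hr : ∀ x ∈ e, x < a + k + b := fun x hx => mem_range.1 (he hx)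
    have hij : i < j := by
      by_contra hcon
      push Not at hcon
      have : (e.filter (· < a + j)).card ≤ (e.filter (· < a + i)).card := by
        apply card_le_card
        intro x hx
        rw [mem_filter] at hx ⊢
        exact ⟨hx.1, by omega⟩
      omega
    -- `j < k`
    have hjk : j < k := by
      by_contra hcon
      push Not at hcon
      have h1 : (e.filter fun x => ¬ x < a + j) ⊆ Ico (a + k) (a + k + b) := by
        intro x hx
        rw [mem_filter] at hx
        rw [mem_Ico]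
        exact ⟨by omega, hr x hx.1⟩
      have h2 := card_le_card h1
      have h3 := card_filter_add_card_filter_not (s := e) (fun x => x < a + j)
      rw [Nat.card_Ico] at h2
      omega
    have hinj : Set.InjOn g (e : Set ℕ) := fun x hx y hy hxy =>
      hmono.injOn (hr x hx) (hr y hy) hxy
    have hfilt : ∀ s, s ∈ e → ((e.image g).filter (· < g s)).card = (e.filter (· < s)).card := by
      intro s hs
      have : (e.image g).filter (· < g s) = (e.filter (· < s)).image g := by
        ext x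
        simp only [mem_filter, mem_image]
        constructor
        · rintro ⟨⟨y, hy, rfl⟩, hlt⟩
          refine ⟨y, ⟨hy, ?_⟩, rfl⟩
          by_contra hcon
          push Not at hcon
          exact absurd hlt (not_lt.2 (hmono.monotoneOn (hr s hs) (hr y hy) hcon))
        · rintro ⟨y, ⟨hy, hlt⟩, rfl⟩
          exact ⟨⟨y, hy, rfl⟩, hmono (hr y hy) (hr s hs) hlt⟩
      rw [this, card_image_of_injOn (fun x hx y hy hxy =>
        hinj (mem_filter.1 hx).1 (mem_filter.1 hy).1 hxy)]
    rw [hd (e.image g) ?_ ?_ (g (a + i)) (mem_image_of_mem _ hi) (g (a + j))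
      (mem_image_of_mem _ hj) (by rw [hfilt _ hi, hfi]) (by rw [hfilt _ hj, hfj]),
      hg2 (a + i) (by omega) (by omega), hg2 (a + j) (by omega) (by omega),
      Nat.add_sub_cancel_left, Nat.add_sub_cancel_left]
    · exact (hv2 i j hij hjk).2
    · intro y hy
      rw [mem_image] at hy
      obtain ⟨x, hx, rfl⟩ := hy
      rw [mem_union, mem_union]
      rcases lt_or_ge x a with h1 | h1
      · exact Or.inl (Or.inl (hgA x h1))
      · rcases lt_or_ge x (a + k) with h2 | h2
        · exact Or.inl (Or.inr (hgW x h1 h2))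
        · exact Or.inr (hgB x h2 (hr x hx))
    · rw [card_image_of_injOn hinj, hec]

theorem hom_of_pair2 {c : Finset ℕ → Bool} {a b n : ℕ} {X A W B S : Finset ℕ}
    {d : ℕ → ℕ → Bool} (hW : W ⊆ X) (hd : Lifted2 c a b (A ∪ W ∪ B) d) (hS : S ⊆ W)
    (hn : n ≤ S.card) {β : Bool} (hb : ∀ x ∈ S, ∀ y ∈ S, x < y → d x y = β) :
    Hom c (a + b + 2) X n := by
  obtain ⟨T, hT, hTc⟩ := exists_subset_card_eq hn
  refine ⟨T, (hT.trans hS).trans hW, hTc, β, ?_⟩
  intro e he hec
  -- the elements number `a + 1` and `a + 2` of `e`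
  have hfilt : ∀ t < e.card, (e.filter (· < enum e t)).card = t := by
    intro t ht
    have : e.filter (· < enum e t) = (range t).image (enum e) := by
      ext x
      rw [mem_filter, mem_image]
      constructor
      · rintro ⟨hx, hlt⟩
        obtain ⟨u, hu⟩ : ∃ u, e.orderEmbOfFin rfl u = x := by
          have : x ∈ Set.range (e.orderEmbOfFin rfl) := by
            rw [range_orderEmbOfFin]
            exact hx
          exact this
        have hux : enum e u = x := by
          unfold enum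
          rw [dif_pos u.2]
          exact hu
        refine ⟨u, ?_, hux⟩
        rw [mem_range]
        by_contra hcon
        push Not at hcon
        rw [← hux] at hlt
        rcases Nat.eq_or_lt_of_le hcon with h | h
        · rw [h] at hlt
          exact lt_irrefl _ hlt
        · exact absurd hlt (not_lt.2 (enum_lt h u.2).le)
      · rintro ⟨u, hu, rfl⟩
        rw [mem_range] at hu
        exact ⟨enum_mem (by omega), enum_lt hu ht⟩
    rw [this, card_image_of_injOn, card_range]
    intro x hx y hy hxy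
    have hx' : x < t := by simpa using hx
    have hy' : y < t := by simpa using hy
    rcases lt_trichotomy x y with h | h | h
    · exact absurd hxy (enum_lt h (by omega)).ne
    · exact h
    · exact absurd hxy.symm (enum_lt h (by omega)).ne
  have h1 : enum e a ∈ e := enum_mem (by omega)
  have h2 : enum e (a + 1) ∈ e := enum_mem (by omega)
  rw [hd e (fun x hx => ?_) hec _ h1 _ h2 (hfilt a (by omega)) (hfilt (a + 1) (by omega))]
  · exact hb _ (hT (he h1)) _ (hT (he h2)) (enum_lt (by omega) (by omega))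
  · rw [mem_union, mem_union]
    exact Or.inl (Or.inr (hS (hT (he hx))))

/-- **Lifts of graphs at every position**, with two parameters. -/
theorem lifts2 (a b : ℕ) : ∃ C : ℕ, 1 ≤ C ∧ ∀ (k T y n : ℕ), 1 ≤ k → 1 ≤ T → 1 ≤ y → 1 ≤ n →
    32 * T * n ≤ 2 ^ T * y → ∀ (c : Finset ℕ → Bool) (X : Finset ℕ),
      tow (a + b + 1) (C * (y + k * T ^ 2)) ≤ X.card →
      Hom c (a + b + 2) X n ∨ ∀ P : ℕ → ℕ → Bool, LiftAt c a b X k P := by
  obtain ⟨D, hD, hF⟩ := F_le (a + b)
  refine ⟨D + 200, by omega, fun k T y n hk hT hy hn hcond c X hX => ?_⟩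
  by_cases hhom : Hom c (a + b + 2) X n
  · exact Or.inl hhom
  right
  intro P
  have h1 : F (a + b) (2 ^ (32 * y + 10 * k * T ^ 2)) ≤ X.card := by
    refine (hF _).trans (le_trans (tow_mono ?_ _) (le_trans (tow_succ' _ _).ge hX))
    refine (size_bound D _).trans (Nat.pow_le_pow_right (by norm_num) ?_)
    have e1 : D + 3 * (32 * y + 10 * k * T ^ 2 + 2) = D + 6 + 96 * y + 30 * (k * T ^ 2) := by ring
    have e2 : (D + 200) * (y + k * T ^ 2) =
      D * y + D * (k * T ^ 2) + 200 * y + 200 * (k * T ^ 2) := by ring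
    have e3 : D ≤ D * y := Nat.le_mul_of_pos_right _ hy
    rw [e1, e2]
    omega
  obtain ⟨A, W, B, hA, hW, hB, hAc, hWc, hBc, hAW, hWB, hAB, d, hd⟩ := red2 a b _ c X h1
  rcases pair_theorem2 d k T y n hk hT hy hn hcond P W hWc.ge with h | ⟨S, hS, hSc, β, hβ⟩
  · exact liftAt_of hA hW hB hAc hBc hAW hWB hAB hd h
  · exact absurd (hom_of_pair2 hW hd hS (by omega) hβ) hhom

/-- all scales -/
theorem lifts_log (a b : ℕ) : ∃ C : ℕ, ∀ (k n : ℕ), 1 ≤ k → 2 ≤ n → ∀ (c : Finset ℕ → Bool)
    (X : Finset ℕ), tow (a + b + 1) (C * (k * Nat.clog 2 n ^ 2)) ≤ X.card →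
      Hom c (a + b + 2) X n ∨ ∀ P : ℕ → ℕ → Bool, LiftAt c a b X k P := by
  obtain ⟨C, hC, h⟩ := lifts2 a b
  refine ⟨C * 200, fun k n hk hn c X hX => ?_⟩
  set L := Nat.clog 2 n with hL
  have hL1 : 1 ≤ L := Nat.clog_pos (by norm_num) hn
  have hnL : n ≤ 2 ^ L := Nat.le_pow_clog (by norm_num) n
  refine h k (2 * L + 10) 1 n hk (by omega) le_rfl (by omega) ?_ c X
    (le_trans (tow_mono ?_ _) hX)
  · have h1 : L ≤ 2 ^ L := Nat.lt_two_pow_self.le
    have h3 : 1 ≤ 2 ^ L := Nat.one_le_two_pow
    have h2 : 32 * (2 * L + 10) ≤ 1024 * 2 ^ L := by omega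
    calc 32 * (2 * L + 10) * n ≤ 1024 * 2 ^ L * 2 ^ L := Nat.mul_le_mul h2 hnL
      _ = 2 ^ (2 * L + 10) * 1 := by
          rw [pow_add, two_mul, pow_add]
          norm_num
          ring
  · have h1 : (2 * L + 10) ^ 2 ≤ 144 * L ^ 2 := by
      have : 2 * L + 10 ≤ 12 * L := by omega
      calc (2 * L + 10) ^ 2 ≤ (12 * L) ^ 2 := Nat.pow_le_pow_left this 2
        _ = 144 * L ^ 2 := by ring
    have h2 : 1 ≤ k * L ^ 2 := Nat.succ_le_of_lt (by positivity)
    have h3 : 1 + k * (2 * L + 10) ^ 2 ≤ 200 * (k * L ^ 2) := by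
      have := Nat.mul_le_mul_left k h1
      have e : k * (144 * L ^ 2) = 144 * (k * L ^ 2) := by ring
      omega
    calc C * (1 + k * (2 * L + 10) ^ 2) ≤ C * (200 * (k * L ^ 2)) := by gcongr
      _ = C * 200 * (k * L ^ 2) := by ring

/-- full tower height: all graphs with a linear number of vertices -/
theorem lifts_linear (a b : ℕ) : ∃ C : ℕ, ∀ (K k n : ℕ), 1 ≤ K → 1 ≤ k →
    C * (K * (Nat.clog 2 K + 1) ^ 2 * k) ≤ n → ∀ (c : Finset ℕ → Bool) (X : Finset ℕ),
      tow (a + b + 1) (n / K) ≤ X.card →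
      Hom c (a + b + 2) X n ∨ ∀ P : ℕ → ℕ → Bool, LiftAt c a b X k P := by
  obtain ⟨C, hC, h⟩ := lifts2 a b
  refine ⟨4 * C + 2 * C * (C + 22) ^ 2, fun K k n hK hk hn c X hX => ?_⟩
  set A := Nat.clog 2 K + 1 with hA
  have hA1 : 1 ≤ A := by omega
  have hKA : K ≤ 2 ^ A := (Nat.le_pow_clog (by norm_num) K).trans
    (Nat.pow_le_pow_right (by norm_num) (by omega))
  set T := 2 * A + (C + 20) with hT
  have hTA : T ≤ (C + 22) * A := by
    rw [hT]
    nlinarith
  have hk2 : 1 ≤ K * A ^ 2 * k := Nat.succ_le_of_lt (by positivity)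
  have hKk : K ≤ K * A ^ 2 * k := by
    calc K = K * 1 * 1 := by ring
      _ ≤ K * A ^ 2 * k := by
          gcongr
          exact Nat.one_le_pow _ _ hA1
  have hn1 : 4 * (C * K) ≤ n := by
    refine le_trans ?_ hn
    calc 4 * (C * K) = (4 * C) * K := by ring
      _ ≤ (4 * C + 2 * C * (C + 22) ^ 2) * (K * A ^ 2 * k) :=
          Nat.mul_le_mul (Nat.le_add_right _ _) hKk
  have hn2 : 2 * K * (C * (k * T ^ 2)) ≤ n := by
    refine le_trans ?_ hn
    have h1 : T ^ 2 ≤ (C + 22) ^ 2 * A ^ 2 := by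
      rw [← mul_pow]
      exact Nat.pow_le_pow_left hTA 2
    calc 2 * K * (C * (k * T ^ 2)) ≤ 2 * K * (C * (k * ((C + 22) ^ 2 * A ^ 2))) := by gcongr
      _ = 2 * C * (C + 22) ^ 2 * (K * A ^ 2 * k) := by ring
      _ ≤ _ := Nat.mul_le_mul_right _ (Nat.le_add_left _ _)
  set m := 2 * (C * K) with hm
  have hm1 : 1 ≤ m := Nat.succ_le_of_lt (by positivity)
  set y := n / m with hy
  have hy1 : 1 ≤ y := (Nat.le_div_iff_mul_le (by omega)).2 (by omega)
  have hmy : n ≤ 2 * (m * y) := by
    have h1 : n < m * y + m := by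
      have := Nat.lt_mul_div_succ n (show 0 < m by omega)
      rw [Nat.mul_add, mul_one] at this
      exact this
    omega
  have hym : m * y ≤ n := Nat.mul_div_le n m
  refine h k T y n hk (by omega) hy1 (by omega) ?_ c X (le_trans (tow_mono ?_ _) hX)
  · -- `32 T n ≤ 2 ^ T y`
    have h1 : 128 * C * T ≤ 2 ^ A * 2 ^ (C + 20) := by
      have h2 : 128 * C * (C + 22) ≤ 2 ^ (C + 20) := by
        have h3 : C ≤ 2 ^ C := Nat.lt_two_pow_self.le
        have h4 : C * (C + 22) ≤ 92 * 2 ^ C := by
          have h5 : ∀ c : ℕ, c * (c + 22) ≤ 92 * 2 ^ c := by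
            intro c
            induction c with
            | zero => simp
            | succ c ih =>
              rcases Nat.lt_or_ge c 3 with hc | hc
              · interval_cases c <;> norm_num
              · have h6 : (c + 1) * (c + 1 + 22) ≤ 2 * (c * (c + 22)) := by nlinarith
                calc (c + 1) * (c + 1 + 22) ≤ 2 * (c * (c + 22)) := h6
                  _ ≤ 2 * (92 * 2 ^ c) := by gcongr
                  _ = 92 * 2 ^ (c + 1) := by ring
          exact h5 C
        calc 128 * C * (C + 22) = 128 * (C * (C + 22)) := by ring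
          _ ≤ 128 * (92 * 2 ^ C) := by gcongr
          _ = 11776 * 2 ^ C := by ring
          _ ≤ 2 ^ 20 * 2 ^ C := by gcongr; norm_num
          _ = 2 ^ (C + 20) := by rw [← pow_add]; congr 1; ring
      have h6 : A ≤ 2 ^ A := Nat.lt_two_pow_self.le
      calc 128 * C * T ≤ 128 * C * ((C + 22) * A) := by gcongr
        _ = (128 * C * (C + 22)) * A := by ring
        _ ≤ 2 ^ (C + 20) * 2 ^ A := Nat.mul_le_mul h2 h6
        _ = 2 ^ A * 2 ^ (C + 20) := by ring
    have h7 : 2 ^ T = 2 ^ A * (2 ^ A * 2 ^ (C + 20)) := by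
      rw [hT, two_mul, pow_add, pow_add]
      ring
    calc 32 * T * n ≤ 32 * T * (2 * (m * y)) := by gcongr
      _ = K * (128 * C * T) * y := by rw [hm]; ring
      _ ≤ 2 ^ A * (2 ^ A * 2 ^ (C + 20)) * y := by gcongr
      _ = 2 ^ T * y := by rw [h7]
  · -- the size
    rw [Nat.le_div_iff_mul_le (by omega)]
    have h1 : 2 * (C * K * y) ≤ n := by
      calc 2 * (C * K * y) = m * y := by rw [hm]; ring
        _ ≤ n := hym
    have h2 : 2 * (K * (C * (k * T ^ 2))) ≤ n := by
      calc 2 * (K * (C * (k * T ^ 2))) = 2 * K * (C * (k * T ^ 2)) := by ring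
        _ ≤ n := hn2
    calc C * (y + k * T ^ 2) * K = C * K * y + K * (C * (k * T ^ 2)) := by ring
      _ ≤ n := by omega

/-! ### The numbers of edges on `r + 1` points -/

/-- Ordered patterns on three vertices with the same colour `β` at the last vertex. -/
theorem three_in (d : ℕ → ℕ → Bool) (n : ℕ) (hn : 1 ≤ n) (σ β : Bool)
    (W : Finset ℕ) (hW : n * n ≤ W.card) :
    (∃ x ∈ W, ∃ y ∈ W, ∃ z ∈ W, x < y ∧ y < z ∧ d x y = σ ∧ d x z = β ∧ d y z = β) ∨
    ∃ S ⊆ W, n ≤ S.card ∧ ∃ b : Bool, ∀ x ∈ S, ∀ y ∈ S, x < y → d x y = b := by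
  by_cases hex : ∃ x ∈ W, ∃ y ∈ W, ∃ z ∈ W, x < y ∧ y < z ∧ d x y = σ ∧ d x z = β ∧ d y z = β
  · exact Or.inl hex
  right
  push Not at hex
  have hne : ∀ b γ : Bool, b ≠ γ → b = !γ := by
    intro b γ hb
    cases b <;> cases γ <;> simp_all
  by_cases hbig : ∃ z ∈ W, n ≤ (W.filter fun b => b < z ∧ d b z = β).card
  · obtain ⟨z, hz, hzc⟩ := hbig
    refine ⟨_, filter_subset _ _, hzc, !σ, ?_⟩
    intro x hx y hy hxy
    rw [mem_filter] at hx hy
    apply hne
    intro h
    exact hex x hx.1 y hy.1 z hz hxy hy.2.1 h hx.2.2 hy.2.2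
  · push Not at hbig
    obtain ⟨S, hS, hSc, hind⟩ := degenerate (fun a b => a < b ∧ d a b = β) n W.card W rfl (by
      intro W' hW' hne'
      refine ⟨W'.max' hne', max'_mem _ _, lt_of_le_of_lt (card_le_card ?_)
        (hbig (W'.max' hne') (hW' (max'_mem _ _)))⟩
      intro b hb
      rw [mem_filter, mem_erase] at hb
      have h1 : b ≤ W'.max' hne' := le_max' _ _ hb.1.2
      rcases hb.2 with h2 | h2
      · omega
      · exact mem_filter.2 ⟨hW' hb.1.2, h2⟩)
    refine ⟨S, hS, ?_, !β, ?_⟩
    · exact Nat.le_of_mul_le_mul_left (hW.trans hSc) hn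
    · intro x hx y hy hxy
      apply hne
      intro h
      exact hind x hx y hy hxy.ne ⟨hxy, h⟩

/-- Ordered patterns on three vertices with the same colour `β` at the first vertex. -/
theorem three_out (d : ℕ → ℕ → Bool) (n : ℕ) (hn : 1 ≤ n) (σ β : Bool)
    (W : Finset ℕ) (hW : n * n ≤ W.card) :
    (∃ x ∈ W, ∃ y ∈ W, ∃ z ∈ W, x < y ∧ y < z ∧ d x y = β ∧ d x z = β ∧ d y z = σ) ∨
    ∃ S ⊆ W, n ≤ S.card ∧ ∃ b : Bool, ∀ x ∈ S, ∀ y ∈ S, x < y → d x y = b := by
  by_cases hex : ∃ x ∈ W, ∃ y ∈ W, ∃ z ∈ W, x < y ∧ y < z ∧ d x y = β ∧ d x z = β ∧ d y z = σ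
  · exact Or.inl hex
  right
  push Not at hex
  have hne : ∀ b γ : Bool, b ≠ γ → b = !γ := by
    intro b γ hb
    cases b <;> cases γ <;> simp_all
  by_cases hbig : ∃ x ∈ W, n ≤ (W.filter fun b => x < b ∧ d x b = β).card
  · obtain ⟨x, hx, hxc⟩ := hbig
    refine ⟨_, filter_subset _ _, hxc, !σ, ?_⟩
    intro y hy z hz hyz
    rw [mem_filter] at hy hz
    apply hne
    intro h
    exact hex x hx y hy.1 z hz.1 hy.2.1 hyz hy.2.2 hz.2.2 h
  · push Not at hbig
    obtain ⟨S, hS, hSc, hind⟩ := degenerate (fun a b => a < b ∧ d a b = β) n W.card W rfl (by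
      intro W' hW' hne'
      refine ⟨W'.min' hne', min'_mem _ _, lt_of_le_of_lt (card_le_card ?_)
        (hbig (W'.min' hne') (hW' (min'_mem _ _)))⟩
      intro b hb
      rw [mem_filter, mem_erase] at hb
      have h1 : W'.min' hne' ≤ b := min'_le _ _ hb.1.2
      rcases hb.2 with h2 | h2
      · exact mem_filter.2 ⟨hW' hb.1.2, h2⟩
      · omega)
    refine ⟨S, hS, ?_, !β, ?_⟩
    · exact Nat.le_of_mul_le_mul_left (hW.trans hSc) hn
    · intro x hx y hy hxy
      apply hne
      intro h
      exact hind x hx y hy hxy.ne ⟨hxy, h⟩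

/-- The number of the red `(a + b + 2)`-sets in `A ∪ {x, y, z} ∪ B`. -/
theorem count2 {c : Finset ℕ → Bool} {a b : ℕ} {A W B : Finset ℕ} {d : ℕ → ℕ → Bool}
    (hAc : A.card = a) (hBc : B.card = b)
    (hAW : ∀ x ∈ A, ∀ w ∈ W, x < w) (hWB : ∀ w ∈ W, ∀ u ∈ B, w < u)
    (hAB : ∀ x ∈ A, ∀ u ∈ B, x < u) (hd : Lifted2 c a b (A ∪ W ∪ B) d) {x y z : ℕ}
    (hx : x ∈ W) (hy : y ∈ W) (hz : z ∈ W) (hxy : x < y) (hyz : y < z) :
    ∃ V ⊆ A ∪ W ∪ B, V.card = a + b + 3 ∧
      ((V.powersetCard (a + b + 2)).filter fun e => c e = true).card =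
        (b + 1) * ind true (d x y) + ind true (d x z) + (a + 1) * ind true (d y z) := by
  set V := A ∪ ({x, y, z} ∪ B) with hV
  have hzB : z ∉ B := fun h => lt_irrefl _ (hWB z hz z h)
  have hyB : y ∉ B := fun h => lt_irrefl _ (hWB y hy y h)
  have hxB : x ∉ B := fun h => lt_irrefl _ (hWB x hx x h)
  have hxyz : ({x, y, z} : Finset ℕ).card = 3 := by
    rw [card_insert_of_notMem, card_pair hyz.ne]
    simp only [mem_insert, mem_singleton]
    omega
  have hd1 : Disjoint ({x, y, z} : Finset ℕ) B := by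
    rw [disjoint_left]
    intro t ht
    simp only [mem_insert, mem_singleton] at ht
    rcases ht with rfl | rfl | rfl
    · exact hxB
    · exact hyB
    · exact hzB
  have hd2 : Disjoint A ({x, y, z} ∪ B) := by
    rw [disjoint_left]
    intro t ht ht'
    rw [mem_union] at ht'
    simp only [mem_insert, mem_singleton] at ht'
    rcases ht' with (rfl | rfl | rfl) | h
    · exact lt_irrefl _ (hAW _ ht _ hx)
    · exact lt_irrefl _ (hAW _ ht _ hy)
    · exact lt_irrefl _ (hAW _ ht _ hz)
    · exact lt_irrefl _ (hAB _ ht _ h)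
  have hVc : V.card = a + b + 3 := by
    rw [hV, card_union_of_disjoint hd2, card_union_of_disjoint hd1, hxyz, hAc, hBc]
    ring
  have hVsub : V ⊆ A ∪ W ∪ B := by
    intro t ht
    rw [hV, mem_union, mem_union] at ht
    simp only [mem_insert, mem_singleton] at ht
    rw [mem_union, mem_union]
    rcases ht with h | (rfl | rfl | rfl) | h
    · exact Or.inl (Or.inl h)
    · exact Or.inl (Or.inr hx)
    · exact Or.inl (Or.inr hy)
    · exact Or.inl (Or.inr hz)
    · exact Or.inr h
  have hmemV : ∀ t, t ∈ V ↔ t ∈ A ∨ t = x ∨ t = y ∨ t = z ∨ t ∈ B := by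
    intro t
    rw [hV, mem_union, mem_union]
    simp only [mem_insert, mem_singleton]
    tauto
  have hxV : x ∈ V := (hmemV x).2 (by tauto)
  have hyV : y ∈ V := (hmemV y).2 (by tauto)
  have hzV : z ∈ V := (hmemV z).2 (by tauto)
  have hce : ∀ t ∈ V, (V.erase t).card = a + b + 2 := fun t ht => by
    rw [card_erase_of_mem ht, hVc]
    rfl
  -- the elements below
  have hfx : V.filter (· < x) = A := by
    ext t
    rw [mem_filter, hmemV]
    constructor
    · rintro ⟨h | rfl | rfl | rfl | h, hlt⟩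
      · exact h
      · omega
      · omega
      · omega
      · exact absurd (hWB x hx t h) (by omega)
    · intro h
      exact ⟨Or.inl h, hAW t h x hx⟩
  have hxA : x ∉ A := fun h => lt_irrefl _ (hAW x h x hx)
  have hyA : y ∉ A := fun h => lt_irrefl _ (hAW y h y hy)
  have hzA : z ∉ A := fun h => lt_irrefl _ (hAW z h z hz)
  have hfy : V.filter (· < y) = insert x A := by
    ext t
    rw [mem_filter, hmemV, mem_insert]
    constructor
    · rintro ⟨h | rfl | rfl | rfl | h, hlt⟩
      · exact Or.inr h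
      · exact Or.inl rfl
      · omega
      · omega
      · exact absurd (hWB y hy t h) (by omega)
    · rintro (rfl | h)
      · exact ⟨by tauto, hxy⟩
      · exact ⟨Or.inl h, hAW t h y hy⟩
  have hfz : V.filter (· < z) = insert y (insert x A) := by
    ext t
    rw [mem_filter, hmemV, mem_insert, mem_insert]
    constructor
    · rintro ⟨h | rfl | rfl | rfl | h, hlt⟩
      · exact Or.inr (Or.inr h)
      · exact Or.inr (Or.inl rfl)
      · exact Or.inl rfl
      · omega
      · exact absurd (hWB z hz t h) (by omega)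
    · rintro (rfl | rfl | h)
      · exact ⟨by tauto, hyz⟩
      · exact ⟨by tauto, by omega⟩
      · exact ⟨Or.inl h, hAW t h z hz⟩
  have hcx : (V.filter (· < x)).card = a := by rw [hfx, hAc]
  have hcy : (V.filter (· < y)).card = a + 1 := by
    rw [hfy, card_insert_of_notMem hxA, hAc]
  have hcz : (V.filter (· < z)).card = a + 2 := by
    rw [hfz, card_insert_of_notMem, card_insert_of_notMem hxA, hAc]
    rw [mem_insert]
    rintro (h | h)
    · omega
    · exact hyA h
  have hfe : ∀ t ∈ V, ∀ s, ((V.erase t).filter (· < s)).card =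
      (V.filter (· < s)).card - (if t < s then 1 else 0) := by
    intro t ht s
    have : (V.erase t).filter (· < s) = (V.filter (· < s)).erase t := by
      ext w
      simp only [mem_filter, mem_erase]
      tauto
    rw [this]
    split_ifs with h
    · rw [card_erase_of_mem (mem_filter.2 ⟨ht, h⟩)]
    · rw [erase_eq_of_notMem (s := V.filter (· < s)) (fun h' => h (mem_filter.1 h').2)]
      rfl
  have h1 : ∀ t ∈ V, t < y → c (V.erase t) = d y z := by
    intro t ht hty
    refine hd _ ((erase_subset _ _).trans hVsub) (hce t ht) y (mem_erase.2 ⟨by omega, hyV⟩) z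
      (mem_erase.2 ⟨by omega, hzV⟩) ?_ ?_
    · rw [hfe t ht, hcy, if_pos hty]
      rfl
    · rw [hfe t ht, hcz, if_pos (by omega)]
      rfl
  have h2 : c (V.erase y) = d x z := by
    refine hd _ ((erase_subset _ _).trans hVsub) (hce y hyV) x (mem_erase.2 ⟨by omega, hxV⟩) z
      (mem_erase.2 ⟨by omega, hzV⟩) ?_ ?_
    · rw [hfe y hyV, hcx, if_neg (by omega)]
      rfl
    · rw [hfe y hyV, hcz, if_pos hyz]
      rfl
  have h3 : ∀ t ∈ V, y < t → c (V.erase t) = d x y := by
    intro t ht hty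
    refine hd _ ((erase_subset _ _).trans hVsub) (hce t ht) x (mem_erase.2 ⟨by omega, hxV⟩) y
      (mem_erase.2 ⟨by omega, hyV⟩) ?_ ?_
    · rw [hfe t ht, hcx, if_neg (by omega)]
      rfl
    · rw [hfe t ht, hcy, if_neg (by omega)]
      rfl
  -- the `(a + b + 2)`-sets are the sets `V.erase t`
  have h4 : (V.powersetCard (a + b + 2)).filter (fun e => c e = true) =
      (V.filter fun t => c (V.erase t) = true).image fun t => V.erase t := by
    ext e
    simp only [mem_filter, mem_powersetCard, mem_image]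
    constructor
    · rintro ⟨⟨he, hec⟩, hce'⟩
      obtain ⟨t, ht, hte⟩ := (exists_eq_insert_iff (s := e) (t := V)).2 ⟨he, by omega⟩
      have htV : t ∈ V := by rw [← hte]; exact mem_insert_self _ _
      have het : V.erase t = e := by rw [← hte, erase_insert ht]
      exact ⟨t, ⟨htV, by rw [het]; exact hce'⟩, het⟩
    · rintro ⟨t, ⟨ht, htc⟩, rfl⟩
      exact ⟨⟨erase_subset _ _, hce t ht⟩, htc⟩
  refine ⟨V, hVsub, hVc, ?_⟩
  rw [h4, card_image_of_injOn]
  · -- count the points `t`
    have h5 : V.filter (fun t => c (V.erase t) = true) =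
        ((insert x A).filter fun _ => d y z = true) ∪ ((({y} : Finset ℕ).filter fun _ =>
          d x z = true) ∪ ((insert z B).filter fun _ => d x y = true)) := by
      ext t
      simp only [mem_filter, mem_union, mem_insert, mem_singleton]
      constructor
      · rintro ⟨ht, htc⟩
        rcases (hmemV t).1 ht with h | rfl | rfl | rfl | h
        · rw [h1 t ht (hAW t h y hy)] at htc
          exact Or.inl ⟨Or.inr h, htc⟩
        · rw [h1 t ht hxy] at htc
          exact Or.inl ⟨Or.inl rfl, htc⟩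
        · rw [h2] at htc
          exact Or.inr (Or.inl ⟨rfl, htc⟩)
        · rw [h3 t ht hyz] at htc
          exact Or.inr (Or.inr ⟨Or.inl rfl, htc⟩)
        · rw [h3 t ht (hWB y hy t h)] at htc
          exact Or.inr (Or.inr ⟨Or.inr h, htc⟩)
      · rintro (⟨rfl | h, htc⟩ | ⟨rfl, htc⟩ | ⟨rfl | h, htc⟩)
        · exact ⟨hxV, by rw [h1 _ hxV hxy]; exact htc⟩
        · have ht : t ∈ V := (hmemV t).2 (Or.inl h)
          exact ⟨ht, by rw [h1 t ht (hAW t h y hy)]; exact htc⟩
        · exact ⟨hyV, by rw [h2]; exact htc⟩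
        · exact ⟨hzV, by rw [h3 _ hzV hyz]; exact htc⟩
        · have ht : t ∈ V := (hmemV t).2 (by tauto)
          exact ⟨ht, by rw [h3 t ht (hWB y hy t h)]; exact htc⟩
    have hcA : (insert x A).card = a + 1 := by rw [card_insert_of_notMem hxA, hAc]
    have hcB : (insert z B).card = b + 1 := by rw [card_insert_of_notMem hzB, hBc]
    have hdj1 : Disjoint ({y} : Finset ℕ) (insert z B) := by
      rw [disjoint_left]
      intro t ht ht'
      rw [mem_singleton] at ht
      subst ht
      rw [mem_insert] at ht'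
      rcases ht' with h | h
      · omega
      · exact hyB h
    have hdj2 : Disjoint (insert x A) ({y} ∪ insert z B) := by
      rw [disjoint_left]
      intro t ht ht'
      rw [mem_insert] at ht
      rw [mem_union, mem_singleton, mem_insert] at ht'
      rcases ht with rfl | ht <;> rcases ht' with h | h | h
      · omega
      · omega
      · exact hxB h
      · subst h; exact hyA ht
      · subst h; exact hzA ht
      · exact lt_irrefl _ (hAB t ht t h)
    have hfc : ∀ (S : Finset ℕ) (q : Bool), (S.filter fun _ => q = true).card =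
        S.card * ind true q := by
      intro S q
      cases q <;> simp [ind]
    rw [h5, card_union_of_disjoint, card_union_of_disjoint, hfc, hfc, hfc, hcA, hcB,
      card_singleton]
    · ring
    · exact disjoint_of_subset_left (filter_subset _ _)
        (disjoint_of_subset_right (filter_subset _ _) hdj1)
    · exact disjoint_of_subset_left (filter_subset _ _) (disjoint_of_subset_right
        (union_subset_union (filter_subset _ _) (filter_subset _ _)) hdj2)
  · intro t ht s hs hts
    have htV : t ∈ V := (mem_filter.1 ht).1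
    by_contra hne
    have h5 : t ∈ V.erase s := mem_erase.2 ⟨hne, htV⟩
    have hab' : V.erase t = V.erase s := hts
    rw [← hab'] at h5
    exact (mem_erase.1 h5).1 rfl

/-- **All numbers of edges on `r + 1` points are forced.** -/
theorem types2 (r : ℕ) (hr : 2 ≤ r) : ∃ C : ℕ, ∀ (n t : ℕ), 2 ≤ n → t ≤ r + 1 →
    ∀ (c : Finset ℕ → Bool) (X : Finset ℕ), tow (r - 1) (C * Nat.clog 2 n) ≤ X.card →
      Hom c r X n ∨ ∃ V ⊆ X, V.card = r + 1 ∧
        ((V.powersetCard r).filter fun e => c e = true).card = t := by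
  obtain ⟨D, hD, hF⟩ := F_le (r - 2)
  refine ⟨D + 12, fun n t hn ht c X hX => ?_⟩
  set L := Nat.clog 2 n with hL
  have hL1 : 1 ≤ L := Nat.clog_pos (by norm_num) hn
  have hnL : n ≤ 2 ^ L := Nat.le_pow_clog (by norm_num) n
  -- the general statement for given positions
  have key : ∀ a b : ℕ, a + b + 2 = r → ∀ (q₁ q₂ q₃ : Bool), (q₁ = q₂ ∨ q₂ = q₃) →
      (b + 1) * ind true q₁ + ind true q₂ + (a + 1) * ind true q₃ = t →
      Hom c r X n ∨ ∃ V ⊆ X, V.card = r + 1 ∧
        ((V.powersetCard r).filter fun e => c e = true).card = t := by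
    intro a b hab q₁ q₂ q₃ hq hcount
    subst hab
    have hs : a + b + 2 - 2 = a + b := by omega
    have hs1 : a + b + 2 - 1 = a + b + 1 := by omega
    rw [hs] at hF
    rw [hs1] at hX
    have h1 : F (a + b) (2 ^ (2 * L)) ≤ X.card := by
      refine (hF _).trans (le_trans (tow_mono ?_ _) (le_trans (tow_succ' _ _).ge hX))
      refine (size_bound D _).trans (Nat.pow_le_pow_right (by norm_num) ?_)
      nlinarith
    obtain ⟨A, W, B, hA, hW, hB, hAc, hWc, hBc, hAW, hWB, hAB, d, hd⟩ := red2 a b _ c X h1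
    have h2 : n * n ≤ W.card := by
      rw [hWc]
      calc n * n ≤ 2 ^ L * 2 ^ L := Nat.mul_le_mul hnL hnL
        _ = 2 ^ (2 * L) := by rw [← pow_add]; ring_nf
    have hfind : (∃ x ∈ W, ∃ y ∈ W, ∃ z ∈ W, x < y ∧ y < z ∧ d x y = q₁ ∧ d x z = q₂ ∧
        d y z = q₃) ∨
        ∃ S ⊆ W, n ≤ S.card ∧ ∃ b : Bool, ∀ x ∈ S, ∀ y ∈ S, x < y → d x y = b := by
      rcases hq with rfl | rfl
      · exact three_out d n (by omega) q₃ q₁ W h2
      · exact three_in d n (by omega) q₁ q₂ W h2
    rcases hfind with ⟨x, hx, y, hy, z, hz, hxy, hyz, e1, e2, e3⟩ | ⟨S, hS, hSc, β, hβ⟩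
    · right
      obtain ⟨V, hV, hVc, hVcount⟩ := count2 hAc hBc hAW hWB hAB hd hx hy hz hxy hyz
      refine ⟨V, hV.trans (union_subset (union_subset hA hW) hB), hVc, ?_⟩
      rw [hVcount, e1, e2, e3]
      exact hcount
    · exact Or.inl (hom_of_pair2 hW hd hS hSc hβ)
  rcases Nat.eq_zero_or_pos t with rfl | ht0
  · exact key 0 (r - 2) (by omega) false false false (Or.inl rfl) (by simp [ind])
  rcases Nat.lt_or_ge t r with h | h
  · refine key (r - 1 - t) (t - 1) (by omega) true false false (Or.inr rfl) ?_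
    simp only [ind, if_true]
    simp
    omega
  rcases Nat.eq_or_lt_of_le h with rfl | h
  · refine key 0 (r - 2) (by omega) true true false (Or.inl rfl) ?_
    simp [ind]
    omega
  · obtain rfl : t = r + 1 := by omega
    refine key 0 (r - 2) (by omega) true true true (Or.inl rfl) ?_
    simp [ind]
    omega

end Pool.Agent.U547.EHT
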