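import Mathlib

/-!
# The Erdős–Hajnal theorem for ordered graphs, with an explicit dependence on the pattern

`d a b` is the colour of the pair `a < b` of natural numbers.
-/

namespace Pool.Agent.U547.EHT

open Finset

/-- An order preserving copy of the pattern `P` on `k` vertices in the set `X`. -/
def PairCopy (d : ℕ → ℕ → Bool) (X : Finset ℕ) (k : ℕ) (P : ℕ → ℕ → Bool) : Prop :=
  ∃ v : ℕ → ℕ, (∀ i < k, v i ∈ X) ∧ ∀ i j, i < j → j < k → v i < v j ∧ d (v i) (v j) = P i j

/-- A set with a clique and an independent set the product of whose sizes is large. -/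
def Good (d : ℕ → ℕ → Bool) (S : Finset ℕ) : Prop :=
  ∃ A B : Finset ℕ, A ⊆ S ∧ B ⊆ S ∧ (∀ a ∈ A, ∀ b ∈ A, a < b → d a b = true) ∧
    (∀ a ∈ B, ∀ b ∈ B, a < b → d a b = false) ∧ S.card ≤ A.card * B.card

/-- Blocks: `k` sets, one after the other. -/
def Blocks (k : ℕ) (V : ℕ → Finset ℕ) : Prop :=
  ∀ i j, i < j → j < k → ∀ a ∈ V i, ∀ b ∈ V j, a < b

theorem embed (d : ℕ → ℕ → Bool) (q m : ℕ) (hq : 1 ≤ q) (hm : 1 ≤ m) : ∀ (k : ℕ) (P : ℕ → ℕ → Bool)
    (V : ℕ → Finset ℕ), Blocks k V → (∀ i < k, 2 * (k + 1) * q ^ k * m ≤ (V i).card) →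
    (∃ v : ℕ → ℕ, (∀ i < k, v i ∈ V i) ∧ ∀ i j, i < j → j < k → d (v i) (v j) = P i j) ∨
    ∃ i j A B, i < j ∧ j < k ∧ A ⊆ V i ∧ B ⊆ V j ∧ m ≤ A.card ∧ 2 * m ≤ B.card ∧
      ∀ a ∈ A, q * (B.filter fun b => d a b = P i j).card ≤ B.card := by
  intro k
  induction k with
  | zero =>
    intro P V _ _
    left
    exact ⟨fun _ => 0, by simp, by intro i j _ h; omega⟩
  | succ k ih =>
    intro P V hV hc
    by_cases h : ∃ a ∈ V 0, ∀ j, j < k →
        (V (j + 1)).card < q * ((V (j + 1)).filter fun b => d a b = P 0 (j + 1)).card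
    · obtain ⟨a, ha, h⟩ := h
      have := ih (fun i j => P (i + 1) (j + 1))
        (fun i => (V (i + 1)).filter fun b => d a b = P 0 (i + 1)) (by
          intro i j hij hj x hx y hy
          simp only [mem_filter] at hx hy
          exact hV (i + 1) (j + 1) (by omega) (by omega) x hx.1 y hy.1) (by
          intro i hi
          have h1 := h i hi
          have h2 := hc (i + 1) (by omega)
          have h3 : q * (2 * (k + 1) * q ^ k * m) ≤
              q * ((V (i + 1)).filter fun b => d a b = P 0 (i + 1)).card := by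
            refine le_trans ?_ h1.le
            refine le_trans ?_ h2
            calc q * (2 * (k + 1) * q ^ k * m) = 2 * (k + 1) * q ^ (k + 1) * m := by ring
              _ ≤ 2 * (k + 1 + 1) * q ^ (k + 1) * m := by gcongr; omega
          exact Nat.le_of_mul_le_mul_left h3 hq)
      rcases this with ⟨v, hv, hv2⟩ | ⟨i, j, A, B, hij, hj, hA, hB, hA2, hB2, hAB⟩
      · left
        refine ⟨fun i => if i = 0 then a else v (i - 1), ?_, ?_⟩
        · intro i hi
          rcases Nat.eq_zero_or_pos i with rfl | hi0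
          · simpa using ha
          · obtain ⟨i, rfl⟩ : ∃ i', i = i' + 1 := ⟨i - 1, by omega⟩
            have := hv i (by omega)
            simp only [mem_filter] at this
            simpa using this.1
        · intro i j hij hj
          obtain ⟨j, rfl⟩ : ∃ j', j = j' + 1 := ⟨j - 1, by omega⟩
          rcases Nat.eq_zero_or_pos i with rfl | hi0
          · have := hv j (by omega)
            simp only [mem_filter] at this
            simpa using this.2
          · obtain ⟨i, rfl⟩ : ∃ i', i = i' + 1 := ⟨i - 1, by omega⟩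
            simpa using hv2 i j (by omega) (by omega)
      · right
        exact ⟨i + 1, j + 1, A, B, by omega, by omega, hA.trans (filter_subset _ _),
          hB.trans (filter_subset _ _), hA2, hB2, hAB⟩
    · push Not at h
      right
      -- every vertex of `V 0` is bad for some block
      choose! f hf1 hf2 using h
      have hk : 0 < k := by
        have h0 := hc 0 (by omega)
        have : 0 < (V 0).card := lt_of_lt_of_le (by positivity) h0
        obtain ⟨a, ha⟩ := card_pos.1 this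
        have := hf1 a ha
        omega
      have hmaps : ∀ a ∈ V 0, f a ∈ range k := fun a ha => by
        simpa using hf1 a ha
      obtain ⟨j, hj, hj2⟩ := exists_le_card_fiber_of_mul_le_card_of_maps_to hmaps
        ⟨0, by simpa using hk⟩ (n := m) (by
          rw [card_range]
          refine le_trans ?_ (hc 0 (by omega))
          have : 1 ≤ q ^ (k + 1) := Nat.one_le_pow _ _ hq
          calc k * m ≤ 2 * (k + 1 + 1) * 1 * m := by nlinarith
            _ ≤ 2 * (k + 1 + 1) * q ^ (k + 1) * m := by gcongr)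
      rw [mem_range] at hj
      refine ⟨0, j + 1, (V 0).filter fun a => f a = j, V (j + 1), by omega, by omega,
        filter_subset _ _, subset_rfl, hj2, ?_, ?_⟩
      · refine le_trans ?_ (hc (j + 1) (by omega))
        have : 1 ≤ q ^ (k + 1) := Nat.one_le_pow _ _ hq
        calc 2 * m ≤ 2 * (k + 1 + 1) * 1 * m := by nlinarith
          _ ≤ 2 * (k + 1 + 1) * q ^ (k + 1) * m := by gcongr
      · intro a ha
        rw [mem_filter] at ha
        have := hf2 a ha.1
        rw [ha.2] at this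
        exact this

/-- A set of natural numbers with at least `k * M` elements contains `k` blocks of size `M`. -/
theorem exists_blocks (X : Finset ℕ) (k M : ℕ) (h : k * M ≤ X.card) :
    ∃ V : ℕ → Finset ℕ, Blocks k V ∧ (∀ i < k, V i ⊆ X) ∧ ∀ i < k, (V i).card = M := by
  classical
  set g : ℕ → ℕ := fun t => if h : t < X.card then X.orderEmbOfFin rfl ⟨t, h⟩ else 0 with hg
  have hg2 : ∀ i (hi : i < X.card), g i = X.orderEmbOfFin rfl ⟨i, hi⟩ := fun i hi => by
    simp only [hg, hi, dite_true]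
  have hmem : ∀ i, i < X.card → g i ∈ X := fun i hi => by
    rw [hg2 i hi]
    exact orderEmbOfFin_mem _ _ _
  have hmono : StrictMonoOn g (Set.Iio X.card) := by
    intro i hi j hj hij
    rw [hg2 i hi, hg2 j hj]
    exact (X.orderEmbOfFin rfl).strictMono hij
  have hlt : ∀ i < k, ∀ a ∈ Ico (i * M) ((i + 1) * M), a < X.card := by
    intro i hi a ha
    rw [mem_Ico] at ha
    refine lt_of_lt_of_le ha.2 (le_trans ?_ h)
    exact Nat.mul_le_mul_right _ hi
  refine ⟨fun i => (Ico (i * M) ((i + 1) * M)).image g, ?_, ?_, ?_⟩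
  · intro i j hij hj a ha b hb
    simp only [mem_image] at ha hb
    obtain ⟨a, ha, rfl⟩ := ha
    obtain ⟨b, hb, rfl⟩ := hb
    refine hmono (hlt i (by omega) a ha) (hlt j hj b hb) ?_
    rw [mem_Ico] at ha hb
    refine lt_of_lt_of_le ha.2 (le_trans ?_ hb.1)
    exact Nat.mul_le_mul_right _ hij
  · intro i hi a ha
    simp only [mem_image] at ha
    obtain ⟨a, ha, rfl⟩ := ha
    exact hmem a (hlt i hi a ha)
  · intro i hi
    rw [card_image_of_injOn]
    · rw [Nat.card_Ico, add_mul, one_mul]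
      omega
    · intro a ha b hb hab
      exact hmono.injOn (hlt i hi a ha) (hlt i hi b hb) hab

/-- The join of two good sets. -/
theorem good_join (d : ℕ → ℕ → Bool) (τ : Bool) (S T : Finset ℕ) (hST : ∀ a ∈ S, ∀ b ∈ T, a < b)
    (hτ : ∀ a ∈ S, ∀ b ∈ T, d a b = τ) (hS : Good d S) (hT : Good d T) : Good d (S ∪ T) := by
  obtain ⟨A, B, hA, hB, hA1, hB1, hc⟩ := hS
  obtain ⟨A', B', hA', hB', hA1', hB1', hc'⟩ := hT
  have hdisj : Disjoint S T := by
    rw [disjoint_left]
    intro x hx hx'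
    exact lt_irrefl _ (hST x hx x hx')
  -- the union of two sets of the colour `τ`
  have key : ∀ (σ : Bool) (C C' : Finset ℕ), C ⊆ S → C' ⊆ T → d = d → τ = σ →
      (∀ a ∈ C, ∀ b ∈ C, a < b → d a b = σ) → (∀ a ∈ C', ∀ b ∈ C', a < b → d a b = σ) →
      ∀ a ∈ C ∪ C', ∀ b ∈ C ∪ C', a < b → d a b = σ := by
    intro σ C C' hC hC' _ hσ h1 h2 a ha b hb hab
    rw [mem_union] at ha hb
    rcases ha with ha | ha <;> rcases hb with hb | hb
    · exact h1 a ha b hb hab
    · rw [← hσ]; exact hτ a (hC ha) b (hC' hb)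
    · exact absurd (hST b (hC hb) a (hC' ha)) (by omega)
    · exact h2 a ha b hb hab
  rcases Bool.eq_false_or_eq_true τ with ht | ht
  · -- colour true
    rcases le_total B.card B'.card with hBB | hBB
    · refine ⟨A ∪ A', B', union_subset_union hA hA', hB'.trans subset_union_right,
        key true A A' hA hA' rfl ht hA1 hA1', hB1', ?_⟩
      rw [card_union_of_disjoint hdisj, card_union_of_disjoint (disjoint_of_subset_left hA
        (disjoint_of_subset_right hA' hdisj))]
      nlinarith [Nat.mul_le_mul_left A.card hBB]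
    · refine ⟨A ∪ A', B, union_subset_union hA hA', hB.trans subset_union_left,
        key true A A' hA hA' rfl ht hA1 hA1', hB1, ?_⟩
      rw [card_union_of_disjoint hdisj, card_union_of_disjoint (disjoint_of_subset_left hA
        (disjoint_of_subset_right hA' hdisj))]
      nlinarith [Nat.mul_le_mul_left A'.card hBB]
  · rcases le_total A.card A'.card with hAA | hAA
    · refine ⟨A', B ∪ B', hA'.trans subset_union_right, union_subset_union hB hB', hA1',
        key false B B' hB hB' rfl ht hB1 hB1', ?_⟩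
      rw [card_union_of_disjoint hdisj, card_union_of_disjoint (disjoint_of_subset_left hB
        (disjoint_of_subset_right hB' hdisj))]
      nlinarith [Nat.mul_le_mul_right B.card hAA]
    · refine ⟨A, B ∪ B', hA.trans subset_union_left, union_subset_union hB hB', hA1,
        key false B B' hB hB' rfl ht hB1 hB1', ?_⟩
      rw [card_union_of_disjoint hdisj, card_union_of_disjoint (disjoint_of_subset_left hB
        (disjoint_of_subset_right hB' hdisj))]
      nlinarith [Nat.mul_le_mul_right B'.card hAA]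

/-- One doubling step. -/
theorem step (d : ℕ → ℕ → Bool) (k : ℕ) (P : ℕ → ℕ → Bool) (X₀ : Finset ℕ)
    (hP : ¬ PairCopy d X₀ k P) (m t : ℕ) (hm : 1 ≤ m) (ht : 1 ≤ t)
    (h : ∀ X ⊆ X₀, m ≤ X.card → ∃ S ⊆ X, S.card = t ∧ Good d S) :
    ∀ X ⊆ X₀, k * (2 * (k + 1) * (2 * t) ^ k * m) ≤ X.card →
      ∃ S ⊆ X, S.card = 2 * t ∧ Good d S := by
  intro X hX hc
  obtain ⟨V, hV, hVX, hVc⟩ := exists_blocks X k _ hc
  rcases embed d (2 * t) m (by omega) hm k P V hV (fun i hi => (hVc i hi).ge) with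
    ⟨v, hv, hv2⟩ | ⟨i, j, A, B, hij, hj, hA, hB, hA2, hB2, hAB⟩
  · exact absurd ⟨v, fun i hi => hX (hVX i hi (hv i hi)), fun i j hij hj =>
      ⟨hV i j hij hj _ (hv i (by omega)) _ (hv j hj), hv2 i j hij hj⟩⟩ hP
  obtain ⟨S, hSA, hSc, hS⟩ := h A ((hA.trans (hVX i (by omega))).trans hX) hA2
  set N : Finset ℕ := S.biUnion fun a => B.filter fun b => d a b = P i j with hN
  have hN2 : N.card ≤ ∑ a ∈ S, (B.filter fun b => d a b = P i j).card := card_biUnion_le
  have hN3 : (2 * t) * N.card ≤ t * B.card := by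
    calc (2 * t) * N.card ≤ (2 * t) * ∑ a ∈ S, (B.filter fun b => d a b = P i j).card := by
          gcongr
      _ = ∑ a ∈ S, (2 * t) * (B.filter fun b => d a b = P i j).card := by rw [mul_sum]
      _ ≤ ∑ a ∈ S, B.card := sum_le_sum fun a ha => hAB a (hSA ha)
      _ = t * B.card := by rw [sum_const, hSc, smul_eq_mul]
  have hN4 : 2 * N.card ≤ B.card := by
    have : t * (2 * N.card) ≤ t * B.card := by linarith [hN3]
    exact Nat.le_of_mul_le_mul_left this ht
  have hN5 : m ≤ (B \ N).card := by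
    have h1 : B.card - N.card ≤ (B \ N).card := le_card_sdiff N B
    omega
  obtain ⟨T, hTB, hTc, hT⟩ := h (B \ N)
    ((((sdiff_subset).trans hB).trans (hVX j hj)).trans hX) hN5
  have hlt : ∀ a ∈ S, ∀ b ∈ T, a < b := fun a ha b hb =>
    hV i j hij hj a (hA (hSA ha)) b (hB ((mem_sdiff.1 (hTB hb)).1))
  refine ⟨S ∪ T, union_subset ((hSA.trans hA).trans (hVX i (by omega)))
    (((hTB.trans sdiff_subset).trans hB).trans (hVX j hj)), ?_,
    good_join d (!(P i j)) S T hlt ?_ hS hT⟩
  · rw [card_union_of_disjoint, hSc, hTc]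
    · omega
    · rw [disjoint_left]
      intro x hx hx'
      exact lt_irrefl _ (hlt x hx x hx')
  · intro a ha b hb
    have h1 := mem_sdiff.1 (hTB hb)
    have h2 : d a b ≠ P i j := fun h => h1.2 (by
      rw [hN, mem_biUnion]
      exact ⟨a, ha, mem_filter.2 ⟨h1.1, h⟩⟩)
    cases hd : d a b <;> cases hp : P i j <;> simp_all

/-- the sizes in the iteration -/
def sz (k : ℕ) : ℕ → ℕ
  | 0 => 1
  | j + 1 => k * (2 * (k + 1) * (2 * 2 ^ j) ^ k * sz k j)

theorem sz_pos {k : ℕ} (hk : 1 ≤ k) : ∀ j, 1 ≤ sz k j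
  | 0 => le_rfl
  | j + 1 => by
    have := sz_pos hk j
    unfold sz
    exact Nat.succ_le_of_lt (by positivity)

theorem iter (d : ℕ → ℕ → Bool) (k : ℕ) (hk : 1 ≤ k) (P : ℕ → ℕ → Bool) (X₀ : Finset ℕ)
    (hP : ¬ PairCopy d X₀ k P) : ∀ j, ∀ X ⊆ X₀, sz k j ≤ X.card →
      ∃ S ⊆ X, S.card = 2 ^ j ∧ Good d S := by
  intro j
  induction j with
  | zero =>
    intro X hX hc
    obtain ⟨a, ha⟩ : X.Nonempty := card_pos.1 (lt_of_lt_of_le Nat.one_pos hc)
    refine ⟨{a}, by simpa using ha, by simp, {a}, {a}, subset_rfl, subset_rfl, ?_, ?_, by simp⟩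
    · intro x hx y hy hxy
      simp only [mem_singleton] at hx hy
      omega
    · intro x hx y hy hxy
      simp only [mem_singleton] at hx hy
      omega
  | succ j ih =>
    intro X hX hc
    have := step d k P X₀ hP (sz k j) (2 ^ j) (sz_pos hk j) Nat.one_le_two_pow ih X hX hc
    rw [pow_succ, mul_comm]
    exact this

theorem two_mul_le (k : ℕ) : 2 * k * (k + 1) ≤ 2 ^ (2 * k) := by
  induction k with
  | zero => simp
  | succ k ih =>
    rcases Nat.eq_zero_or_pos k with rfl | hk
    · simp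
    · have : 2 ^ (2 * (k + 1)) = 4 * 2 ^ (2 * k) := by ring
      rw [this]
      nlinarith

theorem sz_le (k : ℕ) : ∀ j, sz k j ≤ 2 ^ (k * (j * (j + 2)))
  | 0 => by simp [sz]
  | j + 1 => by
    have h := sz_le k j
    unfold sz
    calc k * (2 * (k + 1) * (2 * 2 ^ j) ^ k * sz k j)
        = (2 * k * (k + 1)) * ((2 ^ (j + 1)) ^ k * sz k j) := by ring
      _ ≤ 2 ^ (2 * k) * ((2 ^ (j + 1)) ^ k * 2 ^ (k * (j * (j + 2)))) := by
          gcongr
          exact two_mul_le k
      _ = 2 ^ (2 * k + ((j + 1) * k + k * (j * (j + 2)))) := by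
          rw [← pow_mul, ← pow_add, ← pow_add]
      _ ≤ 2 ^ (k * ((j + 1) * (j + 1 + 2))) := by
          apply Nat.pow_le_pow_right (by norm_num)
          nlinarith [Nat.zero_le (k * j)]

/-- **The Erdős–Hajnal theorem for ordered graphs**, with explicit dependence on the number `k` of
the vertices of the pattern. -/
theorem pair_theorem (d : ℕ → ℕ → Bool) (k L : ℕ) (hk : 1 ≤ k) (hL : 1 ≤ L) (P : ℕ → ℕ → Bool)
    (X : Finset ℕ) (hX : 2 ^ (8 * (k * L ^ 2)) ≤ X.card) :
    PairCopy d X k P ∨ ∃ S ⊆ X, S.card = 2 ^ L ∧ ∃ b : Bool, ∀ x ∈ S, ∀ y ∈ S, x < y → d x y = b := by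
  by_cases hP : PairCopy d X k P
  · exact Or.inl hP
  right
  obtain ⟨S, hS, hSc, A, B, hA, hB, hA1, hB1, hc⟩ := iter d k hk P X hP (2 * L) X subset_rfl (by
    refine le_trans (sz_le k (2 * L)) (le_trans ?_ hX)
    apply Nat.pow_le_pow_right (by norm_num)
    have : 2 * L * (2 * L + 2) ≤ 8 * L ^ 2 := by nlinarith
    calc k * (2 * L * (2 * L + 2)) ≤ k * (8 * L ^ 2) := by gcongr
      _ = 8 * (k * L ^ 2) := by ring)
  have h1 : 2 ^ L ≤ A.card ∨ 2 ^ L ≤ B.card := by
    by_contra hcon
    push Not at hcon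
    have : A.card * B.card < 2 ^ L * 2 ^ L := Nat.mul_lt_mul'' hcon.1 hcon.2
    rw [← pow_add, ← two_mul] at this
    omega
  rcases h1 with h1 | h1
  · obtain ⟨T, hT, hTc⟩ := exists_subset_card_eq h1
    exact ⟨T, (hT.trans hA).trans hS, hTc, true, fun x hx y hy => hA1 x (hT hx) y (hT hy)⟩
  · obtain ⟨T, hT, hTc⟩ := exists_subset_card_eq h1
    exact ⟨T, (hT.trans hB).trans hS, hTc, false, fun x hx y hy => hB1 x (hT hx) y (hT hy)⟩

end Pool.Agent.U547.EHT
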